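import Pool.Agent.V8H43.GE.Maj

set_option autoImplicit false

/-!
# Gap 3-SAT and sums and functions of conjunctions of local conditions
-/

namespace Pool.Agent.V8H43.GE

open Finset
open Pool.Agent.W888.GX (mu)

variable {n m : ℕ}

theorem kc_of_local {k : ℕ} {S : Set (Formula m)} (h : LocalConj k S) :
    KC k {b : Fin m → ZMod 2 | xf b ∈ S} := by
  obtain ⟨κ, T, P, h1, h2, rfl⟩ := h
  refine ⟨κ, T, fun i => {b | xf b ∈ P i}, h1, fun i b b' hb h => ?_, rfl⟩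
  refine h2 i (xf b) (xf b') (fun j hj => ?_) h
  unfold xf
  rw [hb j hj]

/-- the numerical bound for the error -/
theorem err_le (K n k : ℕ) (hK : 1 ≤ K) (hk : 1 ≤ k) :
    (k : ℝ) * (1 - (1 / 2) ^ k) ^ (n / K / k ^ 2) ≤
      2 * k * Real.exp (-(n / (K * k ^ 2 * 2 ^ k))) := by
  have hk0 : (0 : ℝ) < k := by exact_mod_cast hk
  have hK0 : (0 : ℝ) < K := by exact_mod_cast hK
  obtain ⟨τ, hτ⟩ : ∃ τ, τ = n / K / k ^ 2 := ⟨_, rfl⟩
  rw [← hτ]
  have h1 : (n : ℝ) / (K * k ^ 2) ≤ τ + 1 := by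
    rw [div_le_iff₀ (by positivity)]
    rw [Nat.div_div_eq_div_mul] at hτ
    have h2 : n < n / (K * k ^ 2) * (K * k ^ 2) + K * k ^ 2 :=
      Nat.lt_div_mul_add (by positivity)
    rw [← hτ] at h2
    have h3 : (n : ℝ) < τ * (K * k ^ 2) + K * k ^ 2 := by exact_mod_cast h2
    linarith
  have h2 : (1 : ℝ) - (1 / 2) ^ k ≤ Real.exp (-(1 / 2) ^ k) := by
    have := Real.add_one_le_exp (-((1 / 2 : ℝ) ^ k))
    linarith
  have h0 : (0 : ℝ) ≤ 1 - (1 / 2) ^ k := by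
    have : ((1 : ℝ) / 2) ^ k ≤ 1 := pow_le_one₀ (by norm_num) (by norm_num)
    linarith
  have hp : (0 : ℝ) < (1 / 2) ^ k := by positivity
  have hp2 : ((1 : ℝ) / 2) ^ k ≤ 1 / 2 := by
    calc ((1 : ℝ) / 2) ^ k ≤ (1 / 2) ^ 1 := pow_le_pow_of_le_one (by norm_num) (by norm_num) hk
      _ = 1 / 2 := pow_one _
  have h3 : (1 - (1 / 2 : ℝ) ^ k) ^ τ ≤ Real.exp (-(τ * (1 / 2) ^ k)) := by
    calc (1 - (1 / 2 : ℝ) ^ k) ^ τ ≤ Real.exp (-(1 / 2) ^ k) ^ τ := pow_le_pow_left₀ h0 h2 τ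
      _ = _ := by
        rw [← Real.exp_nat_mul]
        congr 1
        ring
  have h4 : Real.exp (-(τ * (1 / 2 : ℝ) ^ k)) ≤ 2 * Real.exp (-(n / (K * k ^ 2 * 2 ^ k))) := by
    have h5 : (2 : ℝ) = Real.exp (Real.log 2) := (Real.exp_log (by norm_num)).symm
    rw [h5, ← Real.exp_add]
    rw [← h5]
    apply Real.exp_le_exp.2
    have h6 : (n : ℝ) / (K * k ^ 2 * 2 ^ k) = n / (K * k ^ 2) * (1 / 2) ^ k := by
      rw [one_div, inv_pow]
      field_simp
    rw [h6]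
    have h7 := mul_le_mul_of_nonneg_right h1 hp.le
    have h8 : (1 : ℝ) / 2 ≤ Real.log 2 := by
      have := Real.log_two_gt_d9
      linarith
    nlinarith
  calc (k : ℝ) * (1 - (1 / 2) ^ k) ^ τ ≤ k * (2 * Real.exp (-(n / (K * k ^ 2 * 2 ^ k)))) :=
        mul_le_mul_of_nonneg_left (h3.trans h4) hk0.le
    _ = _ := by ring

open Classical in
/-- The two bounds. -/
theorem main (ρ : ℝ) (hρ : 0 < ρ) : ∃ Δ K : ℕ, 1 ≤ Δ ∧ 1 ≤ K ∧ ∀ n : ℕ, K ≤ n →
    ∃ (m : ℕ) (v : Fin m → Fin 3 → Fin n), 1 ≤ m ∧ m ≤ Δ * n ∧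
      (∀ j, Function.Injective (v j)) ∧ ∀ k : ℕ, 1 ≤ k →
        (∀ (s : ℕ) (S : Fin s → Set (Formula m)) (w : Fin s → ℝ),
          (∀ i, LocalConj k (S i) ∨ LocalConj k (S i)ᶜ) →
          (∀ F, Satisfiable v F → 1 ≤ ∑ i, if F ∈ S i then w i else 0) →
          (∀ F, Far v (1 / 8 - ρ) F → ∑ i, (if F ∈ S i then w i else 0) ≤ 0) →
          Real.exp (n / (K * k ^ 2 * 2 ^ k)) ≤ 2 * k * ∑ i, |w i|) ∧
        (∀ (q : ℕ) (S : Fin q → Set (Formula m)) (g : Set (Finset (Fin q))),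
          (∀ i, LocalConj k (S i) ∨ LocalConj k (S i)ᶜ) →
          (∀ F, Satisfiable v F → univ.filter (fun i => F ∈ S i) ∈ g) →
          (∀ F, Far v (1 / 8 - ρ) F → univ.filter (fun i => F ∈ S i) ∉ g) →
          Real.exp (n / (K * k ^ 2 * 2 ^ k)) ≤ 2 * k * 4 ^ q) := by
  obtain ⟨Δ, K, hΔ, hK, hbase⟩ := base (4 * ρ) (by linarith)
  refine ⟨Δ, K, hΔ, hK, fun n hn => ?_⟩
  obtain ⟨m, v, e, hm, hmΔ, hinj, hv, he⟩ := hbase n hn
  refine ⟨m, v, hm, hmΔ, hinj, fun k hk => ?_⟩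
  have hρ4 : (1 / 8 : ℝ) - ρ = 1 / 8 - 4 * ρ / 4 := by ring
  obtain ⟨r, hr⟩ : ∃ r, r = n / K := ⟨_, rfl⟩
  have hv' : ∀ J : Finset (Fin m), J.Nonempty → J.card ≤ r → ∃ i, mu v J i = 1 := by
    intro J hJ hJr
    refine hv J hJ ?_
    calc K * J.card ≤ K * r := Nat.mul_le_mul_left _ hJr
      _ ≤ n := by rw [hr]; exact Nat.mul_div_le n K
  obtain ⟨φ, hφ⟩ : ∃ φ : (Fin n → ZMod 2) → Fin m → ZMod 2, φ = word v 0 := ⟨_, rfl⟩
  obtain ⟨ψ, hψ⟩ : ∃ ψ : (Fin n → ZMod 2) → Fin m → ZMod 2, ψ = word v e := ⟨_, rfl⟩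
  have hφu : Unif φ r (2 ^ n) := by rw [hφ]; exact unif_word v r hv' 0
  have hψu : Unif ψ r (2 ^ n) := by rw [hψ]; exact unif_word v r hv' e
  have hsat : ∀ x, Satisfiable v (xf (φ x)) := by
    intro x
    rw [hφ]
    exact satisfiable_word v x
  have hfar : ∀ x, Far v (1 / 8 - ρ) (xf (ψ x)) := by
    intro x
    rw [hψ, hρ4]
    exact far_word v e (4 * ρ) hm he x
  obtain ⟨τ, hτ⟩ : ∃ τ, τ = n / K / k ^ 2 := ⟨_, rfl⟩
  have hτr : k * τ * k ≤ r := by
    calc k * τ * k = k ^ 2 * τ := by ring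
      _ ≤ r := by rw [hτ, hr]; exact Nat.mul_div_le _ _
  have herr := err_le K n k hK hk
  rw [← hτ] at herr
  obtain ⟨E, hE⟩ : ∃ E : ℝ, E = Real.exp (n / (K * k ^ 2 * 2 ^ k)) := ⟨_, rfl⟩
  have hE0 : 0 < E := by rw [hE]; exact Real.exp_pos _
  rw [Real.exp_neg, ← hE] at herr
  rw [← hE]
  have hN : (0 : ℝ) < 2 ^ n := by positivity
  have hcard : (Fintype.card (Fin n → ZMod 2) : ℝ) = 2 ^ n := by
    rw [Fintype.card_fun, ZMod.card, Fintype.card_fin]
    push_cast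
    rfl
  constructor
  · intro s S w hS h1 h0
    -- every set has almost the same probability
    have hdiff : ∀ i, |cnt φ {b | xf b ∈ S i} - cnt ψ {b | xf b ∈ S i}| ≤
        2 ^ n * (k * (1 - (1 / 2) ^ k) ^ τ) := by
      intro i
      rcases hS i with h | h
      · exact (kc_of_local h).fool φ ψ r _ hφu hψu hN.le τ hτr
      · have h2 := (kc_of_local h).fool φ ψ r _ hφu hψu hN.le τ hτr
        have h3 : ∀ χ : (Fin n → ZMod 2) → Fin m → ZMod 2,
            cnt χ {b | xf b ∈ (S i)ᶜ} = 2 ^ n - cnt χ {b | xf b ∈ S i} := by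
          intro χ
          rw [← hcard]
          unfold cnt
          rw [← Finset.card_univ, Finset.cast_card, ← sum_sub_distrib]
          refine sum_congr rfl fun x _ => ?_
          by_cases h : xf (χ x) ∈ S i
          · rw [Set.indicator_of_notMem (show χ x ∉ {b | xf b ∈ (S i)ᶜ} from fun h' => h' h),
              Set.indicator_of_mem (show χ x ∈ {b | xf b ∈ S i} from h), sub_self]
          · rw [Set.indicator_of_mem (show χ x ∈ {b | xf b ∈ (S i)ᶜ} from h),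
              Set.indicator_of_notMem (show χ x ∉ {b | xf b ∈ S i} from h), sub_zero]
        rw [h3, h3] at h2
        rw [abs_sub_comm]
        convert h2 using 2
        ring
    have hsum : ∀ χ : (Fin n → ZMod 2) → Fin m → ZMod 2,
        ∑ x, ∑ i, (if xf (χ x) ∈ S i then w i else 0) = ∑ i, w i * cnt χ {b | xf b ∈ S i} := by
      intro χ
      rw [sum_comm]
      refine sum_congr rfl fun i _ => ?_
      unfold cnt
      rw [mul_sum]
      refine sum_congr rfl fun x _ => ?_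
      by_cases h : xf (χ x) ∈ S i
      · rw [if_pos h, Set.indicator_of_mem (show χ x ∈ {b | xf b ∈ S i} from h), mul_one]
      · rw [if_neg h, Set.indicator_of_notMem (show χ x ∉ {b | xf b ∈ S i} from h), mul_zero]
    have h2 : (2 : ℝ) ^ n ≤ ∑ x, ∑ i, (if xf (φ x) ∈ S i then w i else 0) := by
      calc (2 : ℝ) ^ n = ∑ _x : Fin n → ZMod 2, (1 : ℝ) := by
            rw [sum_const, card_univ, nsmul_eq_mul, mul_one, hcard]
        _ ≤ _ := sum_le_sum fun x _ => h1 _ (hsat x)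
    have h3 : ∑ x, ∑ i, (if xf (ψ x) ∈ S i then w i else 0) ≤ 0 :=
      sum_nonpos fun x _ => h0 _ (hfar x)
    rw [hsum] at h2 h3
    have h4 : (2 : ℝ) ^ n ≤ ∑ i, |w i| * (2 ^ n * (k * (1 - (1 / 2) ^ k) ^ τ)) := by
      have h5 : (2 : ℝ) ^ n ≤ ∑ i, w i * (cnt φ {b | xf b ∈ S i} - cnt ψ {b | xf b ∈ S i}) := by
        simp only [mul_sub, sum_sub_distrib]
        linarith
      refine h5.trans (sum_le_sum fun i _ => ?_)
      refine (le_abs_self _).trans ?_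
      rw [abs_mul]
      exact mul_le_mul_of_nonneg_left (hdiff i) (abs_nonneg _)
    rw [← sum_mul] at h4
    have hW : 0 ≤ ∑ i, |w i| := sum_nonneg fun i _ => abs_nonneg _
    have h6 : (1 : ℝ) ≤ (∑ i, |w i|) * (k * (1 - (1 / 2) ^ k) ^ τ) := by
      have h7 : (2 : ℝ) ^ n * 1 ≤ 2 ^ n * ((∑ i, |w i|) * (k * (1 - (1 / 2) ^ k) ^ τ)) := by
        calc (2 : ℝ) ^ n * 1 = 2 ^ n := mul_one _
          _ ≤ _ := h4
          _ = _ := by ring
      exact le_of_mul_le_mul_left h7 hN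
    have h8 : (1 : ℝ) ≤ (∑ i, |w i|) * (2 * k * E⁻¹) :=
      h6.trans (mul_le_mul_of_nonneg_left herr hW)
    have h9 := mul_le_mul_of_nonneg_right h8 hE0.le
    calc E = 1 * E := (one_mul _).symm
      _ ≤ (∑ i, |w i|) * (2 * k * E⁻¹) * E := h9
      _ = _ := by field_simp
  · intro q S g hS h1 h0
    -- replace the sets by conjunctions
    obtain ⟨A, hAdef⟩ : ∃ A : Fin q → Set (Formula m),
        A = fun i => if LocalConj k (S i) then S i else (S i)ᶜ := ⟨_, rfl⟩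
    have hA : ∀ i, LocalConj k (A i) := by
      intro i
      rw [hAdef]
      show LocalConj k (if LocalConj k (S i) then S i else (S i)ᶜ)
      split_ifs with h
      · exact h
      · exact (hS i).resolve_left h
    obtain ⟨flip, hflip⟩ : ∃ flip : Finset (Fin q) → Finset (Fin q), flip = fun a =>
        univ.filter fun i => if LocalConj k (S i) then i ∈ a else i ∉ a := ⟨_, rfl⟩
    have hfl : ∀ F : Formula m, flip (univ.filter fun i => F ∈ A i) =
        univ.filter fun i => F ∈ S i := by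
      intro F
      rw [hflip, hAdef]
      ext i
      simp only [mem_filter, mem_univ, true_and]
      split_ifs with h
      · rfl
      · simp
    have h2 := fool_fun φ ψ r _ hφu hψu hN.le k τ hτr (fun i => {b | xf b ∈ A i})
      (fun i => kc_of_local (hA i)) {a | flip a ∈ g}
    have h3 : cnt φ {y | univ.filter (fun i => y ∈ (fun i => {b : Fin m → ZMod 2 | xf b ∈ A i}) i) ∈
        {a | flip a ∈ g}} = 2 ^ n := by
      rw [← hcard]
      unfold cnt
      rw [← Finset.card_univ, Finset.cast_card]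
      refine sum_congr rfl fun x _ => ?_
      refine Set.indicator_of_mem ?_ _
      show flip (univ.filter fun i => xf (φ x) ∈ A i) ∈ g
      rw [hfl]
      exact h1 _ (hsat x)
    have h4 : cnt ψ {y | univ.filter (fun i => y ∈ (fun i => {b : Fin m → ZMod 2 | xf b ∈ A i}) i) ∈
        {a | flip a ∈ g}} = 0 := by
      unfold cnt
      refine sum_eq_zero fun x _ => ?_
      refine Set.indicator_of_notMem ?_ _
      show ¬ flip (univ.filter fun i => xf (ψ x) ∈ A i) ∈ g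
      rw [hfl]
      exact h0 _ (hfar x)
    rw [h3, h4, sub_zero, abs_of_pos hN] at h2
    have h6 : (1 : ℝ) ≤ 4 ^ q * (k * (1 - (1 / 2) ^ k) ^ τ) := by
      have h7 : (2 : ℝ) ^ n * 1 ≤ 2 ^ n * (4 ^ q * (k * (1 - (1 / 2) ^ k) ^ τ)) := by
        calc (2 : ℝ) ^ n * 1 = 2 ^ n := mul_one _
          _ ≤ _ := h2
          _ = _ := by ring
      exact le_of_mul_le_mul_left h7 hN
    have h8 : (1 : ℝ) ≤ 4 ^ q * (2 * k * E⁻¹) :=
      h6.trans (mul_le_mul_of_nonneg_left herr (by positivity))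
    have h9 := mul_le_mul_of_nonneg_right h8 hE0.le
    calc E = 1 * E := (one_mul _).symm
      _ ≤ 4 ^ q * (2 * k * E⁻¹) * E := h9
      _ = _ := by field_simp

end Pool.Agent.V8H43.GE
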