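import Mathlib

set_option autoImplicit false
set_option linter.unusedSectionVars false

/-!
# Distributions with uniformly distributed small sets of coordinates cannot be told apart by
conjunctions of local conditions
-/

namespace Pool.Agent.V8H43.GE

open Finset

section

variable {ι : Type} [DecidableEq ι]

/-- the subcube of the words which agree with `z` on `Z` -/
def Cube (Z : Finset ι) (z : ι → ZMod 2) : Set (ι → ZMod 2) := {y | ∀ j ∈ Z, y j = z j}

theorem mem_cube {Z : Finset ι} {z y : ι → ZMod 2} : y ∈ Cube Z z ↔ ∀ j ∈ Z, y j = z j := Iff.rfl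

theorem cube_congr {Z : Finset ι} {z z' : ι → ZMod 2} (h : ∀ j ∈ Z, z j = z' j) :
    Cube Z z = Cube Z z' := by
  ext y
  rw [mem_cube, mem_cube]
  exact forall₂_congr fun j hj => by rw [h j hj]

/-- The set `P` is determined by the coordinates in `T`. -/
def Loc (T : Finset ι) (P : Set (ι → ZMod 2)) : Prop :=
  ∀ y y' : ι → ZMod 2, (∀ j ∈ T, y j = y' j) → y ∈ P → y' ∈ P

/-- the number of the points whose word lies in `S` -/
noncomputable def cnt {X : Type} [Fintype X] (φ : X → ι → ZMod 2) (S : Set (ι → ZMod 2)) : ℝ :=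
  ∑ x, S.indicator (fun _ => (1 : ℝ)) (φ x)

/-- Any `r` coordinates of the word are uniformly distributed. -/
def Unif {X : Type} [Fintype X] (φ : X → ι → ZMod 2) (r : ℕ) (N : ℝ) : Prop :=
  ∀ Z : Finset ι, Z.card ≤ r → ∀ z, cnt φ (Cube Z z) * 2 ^ Z.card = N

theorem cnt_nonneg {X : Type} [Fintype X] (φ : X → ι → ZMod 2) (S : Set (ι → ZMod 2)) :
    0 ≤ cnt φ S := sum_nonneg fun _ _ => Set.indicator_nonneg (fun _ _ => zero_le_one) _

theorem cnt_mono {X : Type} [Fintype X] (φ : X → ι → ZMod 2) {S S' : Set (ι → ZMod 2)}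
    (h : S ⊆ S') : cnt φ S ≤ cnt φ S' :=
  sum_le_sum fun _ _ => Set.indicator_le_indicator_of_subset h (fun _ => zero_le_one) _

theorem cnt_empty {X : Type} [Fintype X] (φ : X → ι → ZMod 2) {S : Set (ι → ZMod 2)}
    (h : ∀ y, y ∉ S) : cnt φ S = 0 :=
  sum_eq_zero fun _ _ => Set.indicator_of_notMem (h _) _

/-- Splitting a function on subcubes. -/
def Split (D : Finset ι → (ι → ZMod 2) → ℝ) : Prop :=
  ∀ (Z : Finset ι) (z : ι → ZMod 2) (i : ι), i ∉ Z →
    D Z z = D (insert i Z) (Function.update z i 0) + D (insert i Z) (Function.update z i 1)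

theorem split_cnt {X : Type} [Fintype X] (φ : X → ι → ZMod 2) (S : Set (ι → ZMod 2)) :
    Split (fun Z z => cnt φ (Cube Z z ∩ S)) := by
  intro Z z i hi
  show cnt φ (Cube Z z ∩ S) = cnt φ (Cube (insert i Z) (Function.update z i 0) ∩ S) +
    cnt φ (Cube (insert i Z) (Function.update z i 1) ∩ S)
  unfold cnt
  rw [← sum_add_distrib]
  refine sum_congr rfl fun x _ => ?_
  have hz : ∀ a : ZMod 2, φ x ∈ Cube (insert i Z) (Function.update z i a) ↔
      φ x i = a ∧ φ x ∈ Cube Z z := by
    intro a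
    rw [mem_cube, mem_cube]
    simp only [mem_insert, forall_eq_or_imp, Function.update_self]
    refine and_congr_right fun _ => ?_
    refine forall₂_congr fun j hj => ?_
    rw [Function.update_of_ne (fun h => hi (by rw [← h]; exact hj))]
  have h2 : φ x i = 0 ∨ φ x i = 1 := by
    have : ∀ a : ZMod 2, a = 0 ∨ a = 1 := by decide
    exact this _
  by_cases hS : φ x ∈ Cube Z z ∩ S
  · rw [Set.indicator_of_mem hS]
    rcases h2 with h | h
    · rw [Set.indicator_of_mem (show φ x ∈ Cube (insert i Z) (Function.update z i 0) ∩ S from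
        ⟨(hz 0).2 ⟨h, hS.1⟩, hS.2⟩), Set.indicator_of_notMem, add_zero]
      rintro ⟨h', -⟩
      rw [((hz 1).1 h').1] at h
      exact absurd h (by decide)
    · rw [Set.indicator_of_notMem, Set.indicator_of_mem (show φ x ∈
        Cube (insert i Z) (Function.update z i 1) ∩ S from ⟨(hz 1).2 ⟨h, hS.1⟩, hS.2⟩), zero_add]
      rintro ⟨h', -⟩
      rw [((hz 0).1 h').1] at h
      exact absurd h (by decide)
  · rw [Set.indicator_of_notMem hS, Set.indicator_of_notMem, Set.indicator_of_notMem, add_zero]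
    · rintro ⟨h', h''⟩
      exact hS ⟨((hz 1).1 h').2, h''⟩
    · rintro ⟨h', h''⟩
      exact hS ⟨((hz 0).1 h').2, h''⟩

theorem Split.sub {D D' : Finset ι → (ι → ZMod 2) → ℝ} (h : Split D) (h' : Split D') :
    Split (fun Z z => D Z z - D' Z z) := by
  intro Z z i hi
  show D Z z - D' Z z = _
  rw [h Z z i hi, h' Z z i hi]
  ring

/-- A bound for all large subcubes gives one for the small ones. -/
theorem avg {D : Finset ι → (ι → ZMod 2) → ℝ} (hD : Split D) (β : ℝ) (U : Finset ι) :
    ∀ (Z : Finset ι) (z : ι → ZMod 2), Disjoint Z U →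
      (∀ z', (∀ j ∈ Z, z' j = z j) → |D (Z ∪ U) z'| * 2 ^ (Z ∪ U).card ≤ β) →
      |D Z z| * 2 ^ Z.card ≤ β := by
  induction U using Finset.induction_on with
  | empty =>
    intro Z z _ h
    have := h z fun _ _ => rfl
    rwa [union_empty] at this
  | insert i U hi ih =>
    intro Z z hZ h
    have hiZ : i ∉ Z := fun h' => (disjoint_left.1 hZ h') (mem_insert_self i U)
    have hZU : Disjoint (insert i Z) U := by
      rw [disjoint_left]
      intro j hj hjU
      rcases mem_insert.1 hj with rfl | hj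
      · exact hi hjU
      · exact (disjoint_left.1 hZ hj) (mem_insert_of_mem hjU)
    have hU : insert i Z ∪ U = Z ∪ insert i U := by
      rw [insert_union, union_insert]
    have key : ∀ a : ZMod 2, |D (insert i Z) (Function.update z i a)| *
        2 ^ (insert i Z).card ≤ β := by
      intro a
      refine ih _ _ hZU fun z' hz' => ?_
      rw [hU]
      refine h z' fun j hj => ?_
      rw [hz' j (mem_insert_of_mem hj), Function.update_of_ne (fun h' => hiZ (by rw [← h']; exact hj))]
    have h0 := key 0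
    have h1 := key 1
    rw [card_insert_of_notMem hiZ, pow_succ] at h0 h1
    rw [hD Z z i hiZ]
    have h2 := abs_add_le (D (insert i Z) (Function.update z i 0))
      (D (insert i Z) (Function.update z i 1))
    have h3 : (0 : ℝ) < 2 ^ Z.card := by positivity
    have h4 := mul_le_mul_of_nonneg_right h2 h3.le
    nlinarith

/-- The same with one vanishing large subcube. -/
theorem avg_zero {D : Finset ι → (ι → ZMod 2) → ℝ} (hD : Split D)
    (hext : ∀ (Z : Finset ι) (z z' : ι → ZMod 2), (∀ j ∈ Z, z j = z' j) → D Z z = D Z z')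
    (β : ℝ) (U : Finset ι) :
    ∀ (Z : Finset ι) (z z0 : ι → ZMod 2), Disjoint Z U →
      (∀ z', (∀ j ∈ Z, z' j = z j) → |D (Z ∪ U) z'| * 2 ^ (Z ∪ U).card ≤ β) →
      (∀ j ∈ Z, z0 j = z j) → D (Z ∪ U) z0 = 0 →
      |D Z z| * 2 ^ Z.card ≤ β * (1 - (1 / 2) ^ U.card) := by
  induction U using Finset.induction_on with
  | empty =>
    intro Z z z0 _ _ hz0 h0
    rw [union_empty] at h0
    rw [hext Z z z0 fun j hj => (hz0 j hj).symm, h0]
    simp
  | insert i U hi ih =>
    intro Z z z0 hZ h hz0 h0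
    have hiZ : i ∉ Z := fun h' => (disjoint_left.1 hZ h') (mem_insert_self i U)
    have hZU : Disjoint (insert i Z) U := by
      rw [disjoint_left]
      intro j hj hjU
      rcases mem_insert.1 hj with rfl | hj
      · exact hi hjU
      · exact (disjoint_left.1 hZ hj) (mem_insert_of_mem hjU)
    have hU : insert i Z ∪ U = Z ∪ insert i U := by
      rw [insert_union, union_insert]
    have hsub : ∀ (a : ZMod 2) (z' : ι → ZMod 2),
        (∀ j ∈ insert i Z, z' j = Function.update z i a j) → ∀ j ∈ Z, z' j = z j := by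
      intro a z' hz' j hj
      rw [hz' j (mem_insert_of_mem hj), Function.update_of_ne (fun h' => hiZ (by rw [← h']; exact hj))]
    have key : ∀ a : ZMod 2, |D (insert i Z) (Function.update z i a)| *
        2 ^ (insert i Z).card ≤ β := by
      intro a
      refine avg hD β U _ _ hZU fun z' hz' => ?_
      rw [hU]
      exact h z' (hsub a z' hz')
    have key2 : |D (insert i Z) (Function.update z i (z0 i))| *
        2 ^ (insert i Z).card ≤ β * (1 - (1 / 2) ^ U.card) := by
      refine ih _ _ z0 hZU (fun z' hz' => ?_) ?_ ?_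
      · rw [hU]
        exact h z' (hsub _ z' hz')
      · intro j hj
        rcases mem_insert.1 hj with rfl | hj
        · rw [Function.update_self]
        · rw [hz0 j hj, Function.update_of_ne (fun h' => hiZ (by rw [← h']; exact hj))]
      · rw [hU]
        exact h0
    rw [card_insert_of_notMem hi, hD Z z i hiZ]
    have h3 : (0 : ℝ) < 2 ^ Z.card := by positivity
    have h2 := abs_add_le (D (insert i Z) (Function.update z i 0))
      (D (insert i Z) (Function.update z i 1))
    have h4 := mul_le_mul_of_nonneg_right h2 h3.le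
    have e : β * (1 - (1 / 2) ^ (U.card + 1)) = (β * (1 - (1 / 2) ^ U.card) + β) / 2 := by
      rw [pow_succ]
      ring
    rw [e]
    have h5 : z0 i = 0 ∨ z0 i = 1 := by
      have : ∀ a : ZMod 2, a = 0 ∨ a = 1 := by decide
      exact this _
    rcases h5 with h5 | h5
    · rw [h5] at key2
      have k1 := key 1
      rw [card_insert_of_notMem hiZ, pow_succ] at key2 k1
      nlinarith
    · rw [h5] at key2
      have k1 := key 0
      rw [card_insert_of_notMem hiZ, pow_succ] at key2 k1
      nlinarith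

theorem cnt_ext {X : Type} [Fintype X] (φ : X → ι → ZMod 2) (S : Set (ι → ZMod 2)) :
    ∀ (Z : Finset ι) (z z' : ι → ZMod 2), (∀ j ∈ Z, z j = z' j) →
      cnt φ (Cube Z z ∩ S) = cnt φ (Cube Z z' ∩ S) := by
  intro Z z z' h
  rw [cube_congr h]

open Classical in
/-- Many disjoint local conditions are rarely satisfied. -/
theorem many {X : Type} [Fintype X] (φ : X → ι → ZMod 2) (r : ℕ) (N : ℝ) (hφ : Unif φ r N)
    (hN : 0 ≤ N) (k : ℕ) {κ : Type} (T : κ → Finset ι) (P : κ → Set (ι → ZMod 2))
    (hP : ∀ i, Loc (T i) (P i)) (s : Finset κ) :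
    ∀ (Z : Finset ι) (z : ι → ZMod 2), (∀ i ∈ s, (T i \ Z).card ≤ k) →
      (∀ i ∈ s, ∀ j ∈ s, i ≠ j → Disjoint (T i \ Z) (T j \ Z)) →
      (∀ i ∈ s, ∃ y ∈ Cube Z z, y ∉ P i) → Z.card + k * s.card ≤ r →
      cnt φ (Cube Z z ∩ {y | ∀ i ∈ s, y ∈ P i}) * 2 ^ Z.card ≤ N * (1 - (1 / 2) ^ k) ^ s.card := by
  induction s using Finset.induction_on with
  | empty =>
    intro Z z _ _ _ hr
    have h1 : cnt φ (Cube Z z ∩ {y | ∀ i ∈ (∅ : Finset κ), y ∈ P i}) ≤ cnt φ (Cube Z z) :=
      cnt_mono φ Set.inter_subset_left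
    have h2 := hφ Z (by omega) z
    rw [card_empty, pow_zero, mul_one, ← h2]
    exact mul_le_mul_of_nonneg_right h1 (by positivity)
  | insert a s ha ih =>
    intro Z z hk hdisj hnon hr
    rw [card_insert_of_notMem ha] at hr ⊢
    obtain ⟨U, hU⟩ : ∃ U, U = T a \ Z := ⟨_, rfl⟩
    have hUk : U.card ≤ k := by rw [hU]; exact hk a (mem_insert_self a s)
    have hZU : Disjoint Z U := by rw [hU]; exact disjoint_sdiff
    have hTa : T a ⊆ Z ∪ U := by
      intro j hj
      rw [mem_union]
      by_cases h : j ∈ Z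
      · exact Or.inl h
      · right
        rw [hU, mem_sdiff]
        exact ⟨hj, h⟩
    obtain ⟨y0, hy0, hy0P⟩ := hnon a (mem_insert_self a s)
    have hcardU : (Z ∪ U).card = Z.card + U.card := card_union_of_disjoint hZU
    have hq : (0 : ℝ) ≤ 1 - (1 / 2) ^ k := by
      have : ((1 : ℝ) / 2) ^ k ≤ 1 := pow_le_one₀ (by norm_num) (by norm_num)
      linarith
    obtain ⟨β, hβ⟩ : ∃ β, β = N * (1 - (1 / 2 : ℝ) ^ k) ^ s.card := ⟨_, rfl⟩
    have hβ0 : 0 ≤ β := by rw [hβ]; positivity
    have hmain := avg_zero (split_cnt φ {y | ∀ i ∈ insert a s, y ∈ P i})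
      (cnt_ext φ {y | ∀ i ∈ insert a s, y ∈ P i}) β U Z z y0 hZU (by
        intro z' hz'
        rw [abs_of_nonneg (cnt_nonneg _ _)]
        have h1 : cnt φ (Cube (Z ∪ U) z' ∩ {y | ∀ i ∈ insert a s, y ∈ P i}) ≤
            cnt φ (Cube (Z ∪ U) z' ∩ {y | ∀ i ∈ s, y ∈ P i}) := by
          refine cnt_mono φ ?_
          rintro y ⟨h2, h3⟩
          exact ⟨h2, fun i hi => h3 i (mem_insert_of_mem hi)⟩
        refine (mul_le_mul_of_nonneg_right h1 (by positivity)).trans ?_
        rw [hβ]
        refine ih (Z ∪ U) z' ?_ ?_ ?_ ?_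
        · intro i hi
          refine (card_le_card ?_).trans (hk i (mem_insert_of_mem hi))
          exact sdiff_subset_sdiff (Finset.Subset.refl _) subset_union_left
        · intro i hi j hj hij
          refine Disjoint.mono ?_ ?_ (hdisj i (mem_insert_of_mem hi) j (mem_insert_of_mem hj) hij)
          · exact sdiff_subset_sdiff (Finset.Subset.refl _) subset_union_left
          · exact sdiff_subset_sdiff (Finset.Subset.refl _) subset_union_left
        · intro i hi
          obtain ⟨y, hy, hyP⟩ := hnon i (mem_insert_of_mem hi)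
          refine ⟨fun j => if j ∈ U then z' j else y j, ?_, ?_⟩
          · intro j hj
            show (if j ∈ U then z' j else y j) = z' j
            by_cases h : j ∈ U
            · rw [if_pos h]
            · rw [if_neg h]
              have hjZ : j ∈ Z := (mem_union.1 hj).resolve_right h
              rw [hy j hjZ, hz' j hjZ]
          · intro hcon
            refine hyP (hP i _ _ (fun j hj => ?_) hcon)
            show (if j ∈ U then z' j else y j) = y j
            have hd := hdisj i (mem_insert_of_mem hi) a (mem_insert_self a s)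
              (fun h => ha (h ▸ hi))
            by_cases h : j ∈ U
            · exfalso
              rw [← hU] at hd
              have hjZ : j ∉ Z := fun h' => disjoint_left.1 hZU h' h
              exact disjoint_left.1 hd (mem_sdiff.2 ⟨hj, hjZ⟩) h
            · rw [if_neg h]
        · rw [hcardU]
          rw [mul_add, mul_one] at hr
          omega)
      (fun j hj => hy0 j hj) (by
        refine cnt_empty φ ?_
        rintro y ⟨h1, h2⟩
        refine hy0P (hP a y y0 (fun j hj => ?_) (h2 a (mem_insert_self a s)))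
        exact h1 j (hTa hj))
    rw [abs_of_nonneg (cnt_nonneg _ _)] at hmain
    refine hmain.trans ?_
    rw [pow_succ, hβ, ← mul_assoc]
    refine mul_le_mul_of_nonneg_left ?_ (by positivity)
    have : ((1 : ℝ) / 2) ^ k ≤ (1 / 2) ^ U.card :=
      pow_le_pow_of_le_one (by norm_num) (by norm_num) hUk
    linarith

open Classical in
/-- Either many disjoint conditions, or a maximal family of few disjoint ones. -/
theorem family {κ : Type} (T : κ → Finset ι) (Z : Finset ι) (Γ : Set κ)
    (hne : ∀ g ∈ Γ, (T g \ Z).Nonempty) (t : ℕ) :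
    (∃ s : Finset κ, (∀ g ∈ s, g ∈ Γ) ∧ s.card = t ∧
      ∀ i ∈ s, ∀ j ∈ s, i ≠ j → Disjoint (T i \ Z) (T j \ Z)) ∨
    (∃ s : Finset κ, (∀ g ∈ s, g ∈ Γ) ∧ s.card ≤ t ∧
      ∀ g ∈ Γ, ∃ i ∈ s, ¬ Disjoint (T g \ Z) (T i \ Z)) := by
  induction t with
  | zero => exact Or.inl ⟨∅, by simp, by simp, by simp⟩
  | succ t ih =>
    rcases ih with ⟨s, h1, h2, h3⟩ | ⟨s, h1, h2, h3⟩
    · by_cases h : ∀ g ∈ Γ, ∃ i ∈ s, ¬ Disjoint (T g \ Z) (T i \ Z)
      · exact Or.inr ⟨s, h1, by omega, h⟩
      · push Not at h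
        obtain ⟨g, hg, hgd⟩ := h
        have hgs : g ∉ s := by
          intro hgs
          have := hgd g hgs
          rw [disjoint_self] at this
          exact (hne g hg).ne_empty this
        refine Or.inl ⟨insert g s, ?_, ?_, ?_⟩
        · intro i hi
          rcases mem_insert.1 hi with rfl | hi
          · exact hg
          · exact h1 i hi
        · rw [card_insert_of_notMem hgs, h2]
        · intro i hi j hj hij
          rcases mem_insert.1 hi with hi' | hi'
          · rcases mem_insert.1 hj with hj' | hj'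
            · exact absurd (hi'.trans hj'.symm) hij
            · rw [hi']
              exact hgd j hj'
          · rcases mem_insert.1 hj with hj' | hj'
            · rw [hj']
              exact (hgd i hi').symm
            · exact h3 i hi' j hj' hij
    · exact Or.inr ⟨s, h1, by omega, h3⟩

open Classical in
/-- Conjunctions of local conditions do not tell two distributions apart. -/
theorem fool {X : Type} [Fintype X] (φ ψ : X → ι → ZMod 2) (r : ℕ) (N : ℝ) (hφ : Unif φ r N)
    (hψ : Unif ψ r N) (hN : 0 ≤ N) (K τ : ℕ) {κ : Type} (T : κ → Finset ι)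
    (P : κ → Set (ι → ZMod 2)) (hP : ∀ i, Loc (T i) (P i)) (k : ℕ) (hk : k ≤ K) :
    ∀ (Z : Finset ι) (z : ι → ZMod 2) (Γ : Set κ), (∀ i ∈ Γ, (T i \ Z).card ≤ k) →
      Z.card + K * τ * k ≤ r →
      |cnt φ (Cube Z z ∩ {y | ∀ i ∈ Γ, y ∈ P i}) - cnt ψ (Cube Z z ∩ {y | ∀ i ∈ Γ, y ∈ P i})| *
        2 ^ Z.card ≤ N * (k * (1 - (1 / 2) ^ K) ^ τ) := by
  have hq : (0 : ℝ) ≤ 1 - (1 / 2) ^ K := by
    have : ((1 : ℝ) / 2) ^ K ≤ 1 := pow_le_one₀ (by norm_num) (by norm_num)
    linarith
  -- an empty intersection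
  have hempty : ∀ (k' : ℕ) (Z : Finset ι) (z : ι → ZMod 2) (Γ : Set κ),
      (∀ y, y ∉ Cube Z z ∩ {y | ∀ i ∈ Γ, y ∈ P i}) →
      |cnt φ (Cube Z z ∩ {y | ∀ i ∈ Γ, y ∈ P i}) - cnt ψ (Cube Z z ∩ {y | ∀ i ∈ Γ, y ∈ P i})| *
        2 ^ Z.card ≤ N * (k' * (1 - (1 / 2) ^ K) ^ τ) := by
    intro k' Z z Γ h
    rw [cnt_empty φ h, cnt_empty ψ h, sub_self, abs_zero, zero_mul]
    positivity
  induction k with
  | zero =>
    intro Z z Γ hΓ hr
    by_cases h : ∀ i ∈ Γ, ∃ y ∈ Cube Z z, y ∈ P i
    · have h1 : Cube Z z ∩ {y | ∀ i ∈ Γ, y ∈ P i} = Cube Z z := by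
        refine Set.inter_eq_left.2 fun y hy i hi => ?_
        obtain ⟨y', hy', hyP⟩ := h i hi
        refine hP i y' y (fun j hj => ?_) hyP
        have h2 : j ∈ Z := by
          by_contra hjZ
          have h3 : (T i \ Z) = ∅ := card_eq_zero.1 (Nat.le_zero.1 (hΓ i hi))
          have h4 : j ∈ T i \ Z := mem_sdiff.2 ⟨hj, hjZ⟩
          rw [h3] at h4
          exact absurd h4 (notMem_empty j)
        rw [hy' j h2, hy j h2]
      rw [h1]
      have h2 := hφ Z (by omega) z
      have h3 := hψ Z (by omega) z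
      have h4 : cnt φ (Cube Z z) = cnt ψ (Cube Z z) := by
        have h5 : (0 : ℝ) < 2 ^ Z.card := by positivity
        exact mul_right_cancel₀ h5.ne' (h2.trans h3.symm)
      rw [h4, sub_self, abs_zero, zero_mul]
      positivity
    · push Not at h
      obtain ⟨i, hi, hno⟩ := h
      refine hempty 0 Z z Γ ?_
      rintro y ⟨hy, hyP⟩
      exact hno y hy (hyP i hi)
  | succ k ih =>
    intro Z z Γ hΓ hr
    obtain ⟨Γ', hΓ'⟩ : ∃ Γ' : Set κ, Γ' = {i | i ∈ Γ ∧ ∃ y ∈ Cube Z z, y ∉ P i} := ⟨_, rfl⟩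
    have hsub : ∀ i ∈ Γ', i ∈ Γ := by
      intro i hi
      rw [hΓ'] at hi
      exact hi.1
    have hnon : ∀ i ∈ Γ', ∃ y ∈ Cube Z z, y ∉ P i := by
      intro i hi
      rw [hΓ'] at hi
      exact hi.2
    have heq : Cube Z z ∩ {y | ∀ i ∈ Γ, y ∈ P i} = Cube Z z ∩ {y | ∀ i ∈ Γ', y ∈ P i} := by
      ext y
      constructor
      · rintro ⟨h1, h2⟩
        exact ⟨h1, fun i hi => h2 i (hsub i hi)⟩
      · rintro ⟨h1, h2⟩
        refine ⟨h1, fun i hi => ?_⟩
        by_contra hcon
        exact hcon (h2 i (by rw [hΓ']; exact ⟨hi, y, h1, hcon⟩))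
    rw [heq]
    by_cases hne : ∀ g ∈ Γ', (T g \ Z).Nonempty
    swap
    · push Not at hne
      obtain ⟨g, hg, hgZ⟩ := hne
      refine hempty (k + 1) Z z Γ' ?_
      rintro y ⟨hy, hyP⟩
      obtain ⟨y0, hy0, hy0P⟩ := hnon g hg
      refine hy0P (hP g y y0 (fun j hj => ?_) (hyP g hg))
      have h2 : j ∈ Z := by
        by_contra hjZ
        have h4 : j ∈ T g \ Z := mem_sdiff.2 ⟨hj, hjZ⟩
        rw [hgZ] at h4
        exact absurd h4 (notMem_empty j)
      rw [hy j h2, hy0 j h2]
    have hKτ : K * τ ≤ K * τ * (k + 1) := Nat.le_mul_of_pos_right _ (by omega)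
    rcases family T Z Γ' hne τ with ⟨s, h1, h2, h3⟩ | ⟨s, h1, h2, h3⟩
    · -- many disjoint conditions
      have hb : ∀ (χ : X → ι → ZMod 2), Unif χ r N →
          cnt χ (Cube Z z ∩ {y | ∀ i ∈ Γ', y ∈ P i}) * 2 ^ Z.card ≤
            N * (1 - (1 / 2) ^ K) ^ τ := by
        intro χ hχ
        have h4 := many χ r N hχ hN K T P hP s Z z (fun i hi => (hΓ i (hsub i (h1 i hi))).trans
          (by omega)) h3 (fun i hi => hnon i (h1 i hi)) (by rw [h2]; omega)
        rw [h2] at h4
        refine le_trans (mul_le_mul_of_nonneg_right (cnt_mono χ ?_) (by positivity)) h4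
        rintro y ⟨h5, h6⟩
        exact ⟨h5, fun i hi => h6 i (h1 i hi)⟩
      have ha := hb φ hφ
      have hb' := hb ψ hψ
      have h0 := cnt_nonneg φ (Cube Z z ∩ {y | ∀ i ∈ Γ', y ∈ P i})
      have h0' := cnt_nonneg ψ (Cube Z z ∩ {y | ∀ i ∈ Γ', y ∈ P i})
      have hpos : (0 : ℝ) < 2 ^ Z.card := by positivity
      have hfin : |cnt φ (Cube Z z ∩ {y | ∀ i ∈ Γ', y ∈ P i}) -
          cnt ψ (Cube Z z ∩ {y | ∀ i ∈ Γ', y ∈ P i})| * 2 ^ Z.card ≤
          N * (1 - (1 / 2) ^ K) ^ τ := by
        rw [← abs_of_pos hpos, ← abs_mul, abs_le]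
        constructor <;> nlinarith
      refine hfin.trans ?_
      refine mul_le_mul_of_nonneg_left ?_ hN
      have h7 : (0 : ℝ) ≤ (1 - (1 / 2) ^ K) ^ τ := by positivity
      have h8 : (1 : ℝ) ≤ ((k + 1 : ℕ) : ℝ) := by
        push_cast
        have : (0 : ℝ) ≤ k := Nat.cast_nonneg k
        linarith
      nlinarith
    · -- few
      obtain ⟨U, hU⟩ : ∃ U, U = s.biUnion fun i => T i \ Z := ⟨_, rfl⟩
      have hUc : U.card ≤ K * τ := by
        rw [hU]
        refine card_biUnion_le.trans ?_
        calc ∑ i ∈ s, (T i \ Z).card ≤ ∑ _i ∈ s, K :=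
              sum_le_sum fun i hi => (hΓ i (hsub i (h1 i hi))).trans (by omega)
          _ = s.card * K := by rw [sum_const, smul_eq_mul]
          _ ≤ τ * K := Nat.mul_le_mul_right _ h2
          _ = K * τ := mul_comm _ _
      have hZU : Disjoint Z U := by
        rw [hU, disjoint_biUnion_right]
        exact fun i _ => disjoint_sdiff
      have hcardU : (Z ∪ U).card = Z.card + U.card := card_union_of_disjoint hZU
      refine (avg ((split_cnt φ {y | ∀ i ∈ Γ', y ∈ P i}).sub (split_cnt ψ _))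
        (N * (k * (1 - (1 / 2) ^ K) ^ τ)) U Z z hZU fun z' hz' => ?_).trans ?_
      · refine ih (by omega) (Z ∪ U) z' Γ' ?_ ?_
        · intro g hg
          obtain ⟨i, hi, hdis⟩ := h3 g hg
          rw [not_disjoint_iff] at hdis
          obtain ⟨j, hj1, hj2⟩ := hdis
          have hss : T g \ (Z ∪ U) ⊆ (T g \ Z).erase j := by
            intro a ha
            rw [mem_sdiff, mem_union, not_or] at ha
            rw [mem_erase, mem_sdiff]
            refine ⟨?_, ha.1, ha.2.1⟩
            rintro rfl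
            exact ha.2.2 (by rw [hU, mem_biUnion]; exact ⟨i, hi, hj2⟩)
          have h4 := card_le_card hss
          rw [card_erase_of_mem hj1] at h4
          have h5 := hΓ g (hsub g hg)
          omega
        · rw [hcardU]
          rw [mul_add, mul_one] at hr
          omega
      · refine mul_le_mul_of_nonneg_left ?_ hN
        refine mul_le_mul_of_nonneg_right ?_ (by positivity)
        push_cast
        linarith

end

end Pool.Agent.V8H43.GE
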