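import Pool.Agent.V8H43.GE.Base

set_option autoImplicit false

/-!
# Few coordinates of a random value of the system are uniformly distributed
-/

namespace Pool.Agent.V8H43.GE

open Finset
open Pool.Agent.W888.GX (mu)

/-- the sign of a bit -/
def sgn (a : ZMod 2) : ℝ := if a = 0 then 1 else -1

theorem sgn_add (a b : ZMod 2) : sgn (a + b) = sgn a * sgn b := by
  have h : ∀ a : ZMod 2, a = 0 ∨ a = 1 := by decide
  unfold sgn
  rcases h a with rfl | rfl <;> rcases h b with rfl | rfl
  · simp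
  · simp
  · simp
  · rw [if_pos (by decide : (1 : ZMod 2) + 1 = 0), if_neg (by decide)]
    norm_num

theorem sgn_zero : sgn 0 = 1 := by simp [sgn]

theorem sgn_sum {ι : Type} (s : Finset ι) (f : ι → ZMod 2) :
    sgn (∑ i ∈ s, f i) = ∏ i ∈ s, sgn (f i) := by
  classical
  induction s using Finset.induction_on with
  | empty => simp [sgn_zero]
  | insert a s ha ih => rw [sum_insert ha, prod_insert ha, sgn_add, ih]

theorem sgn_eq (a b : ZMod 2) : (1 + sgn a * sgn b) / 2 = if a = b then 1 else 0 := by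
  have h : ∀ a : ZMod 2, a = 0 ∨ a = 1 := by decide
  unfold sgn
  rcases h a with rfl | rfl <;> rcases h b with rfl | rfl <;> norm_num

theorem sum_sgn_pow (k : ℕ) (hk : k = 1) : ∑ b : ZMod 2, sgn b ^ k = 0 := by
  subst hk
  simp only [pow_one]
  have : (univ : Finset (ZMod 2)) = {0, 1} := by decide
  rw [this, sum_pair (by decide)]
  unfold sgn
  rw [if_pos rfl, if_neg (by decide)]
  norm_num

variable {n m : ℕ}

/-- The values of the equations at `x`, shifted by `e`. -/
def word (v : Fin m → Fin 3 → Fin n) (e : Fin m → ZMod 2) (x : Fin n → ZMod 2) : Fin m → ZMod 2 :=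
  fun j => ∑ l, x (v j l) + e j

theorem prod_rows (v : Fin m → Fin 3 → Fin n) (J : Finset (Fin m)) (x : Fin n → ZMod 2) :
    ∏ j ∈ J, sgn (∑ l, x (v j l)) = ∏ i, sgn (x i) ^ mu v J i := by
  classical
  have h1 : ∀ j ∈ J, sgn (∑ l, x (v j l)) = ∏ i, sgn (x i) ^ (∑ l, if v j l = i then 1 else 0) := by
    intro j _
    rw [sgn_sum]
    have h2 : ∀ l, sgn (x (v j l)) = ∏ i, sgn (x i) ^ (if v j l = i then 1 else 0) := by
      intro l
      rw [prod_eq_single (v j l)]
      · rw [if_pos rfl, pow_one]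
      · intro i _ hi
        rw [if_neg (Ne.symm hi), pow_zero]
      · intro h
        exact absurd (mem_univ _) h
    rw [prod_congr rfl fun l _ => h2 l, prod_comm]
    refine prod_congr rfl fun i _ => ?_
    rw [prod_pow_eq_pow_sum]
  rw [prod_congr rfl h1, prod_comm]
  refine prod_congr rfl fun i _ => ?_
  rw [prod_pow_eq_pow_sum]
  rfl

theorem sum_rows (v : Fin m → Fin 3 → Fin n) (J : Finset (Fin m)) (i : Fin n)
    (hi : mu v J i = 1) : ∑ x : Fin n → ZMod 2, ∏ j ∈ J, sgn (∑ l, x (v j l)) = 0 := by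
  classical
  simp only [prod_rows]
  have h1 := Finset.prod_univ_sum (fun _ : Fin n => (univ : Finset (ZMod 2)))
    (fun i b => sgn b ^ mu v J i)
  rw [Fintype.piFinset_univ] at h1
  rw [← h1]
  exact prod_eq_zero (mem_univ i) (sum_sgn_pow _ hi)

/-- The number of the points whose word agrees with `z` on `Z`. -/
theorem uniform (v : Fin m → Fin 3 → Fin n) (r : ℕ)
    (hv : ∀ J : Finset (Fin m), J.Nonempty → J.card ≤ r → ∃ i, mu v J i = 1)
    (e : Fin m → ZMod 2) (Z : Finset (Fin m)) (hZ : Z.card ≤ r) (z : Fin m → ZMod 2) :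
    ((univ.filter fun x : Fin n → ZMod 2 => ∀ j ∈ Z, word v e x j = z j).card : ℝ) * 2 ^ Z.card =
      2 ^ n := by
  classical
  have h1 : ((univ.filter fun x : Fin n → ZMod 2 => ∀ j ∈ Z, word v e x j = z j).card : ℝ) =
      ∑ x : Fin n → ZMod 2, ∏ j ∈ Z, ((1 + sgn (word v e x j) * sgn (z j)) / 2) := by
    rw [card_filter]
    push_cast
    refine sum_congr rfl fun x _ => ?_
    simp only [sgn_eq]
    by_cases h : ∀ j ∈ Z, word v e x j = z j
    · rw [if_pos h, prod_congr rfl fun j hj => if_pos (h j hj), prod_const_one]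
    · rw [if_neg h]
      push Not at h
      obtain ⟨j, hj, hne⟩ := h
      exact (prod_eq_zero hj (if_neg hne)).symm
  rw [h1]
  have h2 : ∀ x : Fin n → ZMod 2, ∏ j ∈ Z, ((1 + sgn (word v e x j) * sgn (z j)) / 2) =
      (∏ j ∈ Z, (1 + sgn (word v e x j) * sgn (z j))) / 2 ^ Z.card := by
    intro x
    rw [prod_div_distrib, prod_const]
  rw [sum_congr rfl fun x _ => h2 x, ← sum_div, div_mul_cancel₀ _ (by positivity)]
  have h3 : ∀ x : Fin n → ZMod 2, ∏ j ∈ Z, (1 + sgn (word v e x j) * sgn (z j)) =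
      ∑ J ∈ Z.powerset, (∏ j ∈ J, sgn (∑ l, x (v j l))) * ∏ j ∈ J, (sgn (e j) * sgn (z j)) := by
    intro x
    rw [prod_one_add]
    refine sum_congr rfl fun J _ => ?_
    rw [← prod_mul_distrib]
    refine prod_congr rfl fun j _ => ?_
    unfold word
    rw [sgn_add]
    ring
  rw [sum_congr rfl fun x _ => h3 x, sum_comm]
  simp only [← sum_mul]
  rw [sum_eq_single ∅]
  · simp
  · intro J hJ hne
    rw [mem_powerset] at hJ
    obtain ⟨i, hi⟩ := hv J (nonempty_iff_ne_empty.2 hne) ((card_le_card hJ).trans hZ)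
    rw [sum_rows v J i hi, zero_mul]
  · intro h
    exact absurd (empty_mem_powerset Z) h

end Pool.Agent.V8H43.GE
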