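import Pool.Agent.V8H43.GE.Defs
import Pool.Agent.V8H43.GE.Unif
import Pool.Agent.V8H43.GE.Fool

set_option autoImplicit false

/-!
# The formulas of systems of linear equations
-/

namespace Pool.Agent.V8H43.GE

open Finset
open Pool.Agent.W888.GX (mu)

variable {n m : ℕ}

/-- The formula of the equations `∑ l, x (v j l) = b j`. -/
def xf (b : Fin m → ZMod 2) : Formula m := fun j => univ.filter fun σ => ∑ l, (σ l + 1) ≠ b j

theorem card_half (a : ZMod 2) :
    (univ.filter fun σ : Fin 3 → ZMod 2 => ∑ l, (σ l + 1) ≠ a).card = 4 := by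
  revert a
  decide

theorem size_xf (b : Fin m → ZMod 2) : size (xf b) = 4 * m := by
  unfold size xf
  simp only [card_half]
  simp [mul_comm]

theorem falsified_xf (v : Fin m → Fin 3 → Fin n) (b : Fin m → ZMod 2) (x : Fin n → ZMod 2) :
    falsified v (xf b) x = (univ.filter fun j => ∑ l, x (v j l) ≠ b j).card := by
  unfold falsified
  rw [card_filter]
  refine sum_congr rfl fun j _ => ?_
  have h1 : ∀ a c : ZMod 2, a ≠ c ↔ c = a + 1 := by decide
  have h2 : ((xf b j).filter fun σ => ∀ l, x (v j l) ≠ σ l) =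
      if ∑ l, x (v j l) ≠ b j then {fun l => x (v j l) + 1} else ∅ := by
    ext σ
    unfold xf
    rw [mem_filter, mem_filter]
    have h3 : (∀ l, x (v j l) ≠ σ l) ↔ σ = fun l => x (v j l) + 1 := by
      rw [funext_iff]
      exact forall_congr' fun l => h1 _ _
    rw [h3]
    have h4 : ∀ a : ZMod 2, a + 1 + 1 = a := by decide
    constructor
    · rintro ⟨⟨-, h5⟩, rfl⟩
      simp only [h4] at h5
      rw [if_pos h5]
      exact mem_singleton_self _
    · intro h
      split_ifs at h with h5
      · rw [mem_singleton] at h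
        subst h
        refine ⟨⟨mem_univ _, ?_⟩, rfl⟩
        simp only [h4]
        exact h5
      · exact absurd h (notMem_empty _)
  rw [h2]
  split_ifs <;> simp

/-- The formula of the values at `x` is satisfiable. -/
theorem satisfiable_word (v : Fin m → Fin 3 → Fin n) (x : Fin n → ZMod 2) :
    Satisfiable v (xf (word v 0 x)) := by
  refine ⟨x, ?_⟩
  rw [falsified_xf, card_eq_zero, filter_eq_empty_iff]
  intro j _
  unfold word
  simp

/-- The formulas of the shifted values are far from satisfiable. -/
theorem far_word (v : Fin m → Fin 3 → Fin n) (e : Fin m → ZMod 2) (ρ : ℝ) (hm : 1 ≤ m)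
    (he : ∀ x : Fin n → ZMod 2, (1 / 2 - ρ) * m ≤
      ((univ.filter fun j => ∑ l, x (v j l) ≠ e j).card : ℝ)) (x : Fin n → ZMod 2) :
    Far v (1 / 8 - ρ / 4) (xf (word v e x)) := by
  refine ⟨by rw [size_xf]; omega, fun x' => ?_⟩
  rw [size_xf, falsified_xf]
  have h1 : (univ.filter fun j => ∑ l, x' (v j l) ≠ word v e x j) =
      univ.filter fun j => ∑ l, (x' + x) (v j l) ≠ e j := by
    ext j
    rw [mem_filter, mem_filter]
    unfold word
    simp only [Pi.add_apply, sum_add_distrib, mem_univ, true_and]
    have h2 : ∀ a b c : ZMod 2, a ≠ b + c ↔ a + b ≠ c := by decide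
    exact h2 _ _ _
  rw [h1]
  refine le_trans (le_of_eq ?_) (he (x' + x))
  push_cast
  ring

/-- The values at a random point are uniform in few coordinates. -/
theorem unif_word (v : Fin m → Fin 3 → Fin n) (r : ℕ)
    (hv : ∀ J : Finset (Fin m), J.Nonempty → J.card ≤ r → ∃ i, mu v J i = 1)
    (e : Fin m → ZMod 2) : Unif (word v e) r (2 ^ n) := by
  classical
  intro Z hZ z
  rw [← uniform v r hv e Z hZ z]
  congr 1
  unfold cnt
  rw [card_filter]
  push_cast
  refine sum_congr rfl fun x _ => ?_
  by_cases h : ∀ j ∈ Z, word v e x j = z j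
  · rw [if_pos h, Set.indicator_of_mem (show word v e x ∈ Cube Z z from h)]
  · rw [if_neg h, Set.indicator_of_notMem (show word v e x ∉ Cube Z z from h)]

end Pool.Agent.V8H43.GE
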