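import Pool.Agent.W888.GX.Hyp3
import Pool.Agent.W888.GX.Sys
import Pool.Agent.H30R2.NS.Gap

set_option autoImplicit false

/-!
# Sparse systems of linear equations with three unknowns each which are locally independent, and a
right-hand side which is far from all values
-/

namespace Pool.Agent.V8H43.GE

open Finset
open Pool.Agent.W888.GX (mu img Bad exists_hyp3 once slots)
open Pool.Agent.H30R2.NS (exists_far A wt)

theorem slots_univ {n k : ℕ} (f : Fin k → Fin n) : slots (univ : Finset (Fin n)) f = k := by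
  unfold slots
  simp

/-- The triples, and the right-hand side. -/
theorem base2 (ρ : ℝ) (hρ : 0 < ρ) : ∃ Δ K : ℕ, 1 ≤ Δ ∧ 1 ≤ K ∧ ∀ n : ℕ, K ≤ n →
    ∃ (m : ℕ) (v : Fin m → Fin 3 → Fin n) (e : Fin m → ZMod 2), 1 ≤ m ∧ n ≤ 2 * m ∧ m ≤ Δ * n ∧
      (∀ j, Function.Injective (v j)) ∧
      (∀ J : Finset (Fin m), J.Nonempty → K * J.card ≤ n → ∃ i, mu v J i = 1) ∧
      (∀ x : Fin n → ZMod 2, (1 / 2 - ρ) * m ≤
        ((univ.filter fun j => ∑ l, x (v j l) ≠ e j).card : ℝ)) := by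
  classical
  obtain ⟨Δ, hΔ⟩ := exists_nat_gt (1 / ρ ^ 2)
  have hΔ0 : (0 : ℝ) < Δ := lt_of_le_of_lt (by positivity) hΔ
  have hΔ1 : 1 ≤ Δ := by
    have : 0 < Δ := by exact_mod_cast hΔ0
    omega
  obtain ⟨K, hK⟩ : ∃ K : ℕ, K = 8192 * 3 ^ 12 * Δ ^ 4 := ⟨_, rfl⟩
  have hK1 : 8192 * 3 ^ 12 ≤ K := by
    rw [hK]
    exact Nat.le_mul_of_pos_right _ (by positivity)
  have hK0 : 0 < K := by omega
  refine ⟨Δ, K, hΔ1, by omega, fun n hn => ?_⟩
  have hn1 : 1 ≤ n := by omega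
  have hn0 : (0 : ℝ) < n := by exact_mod_cast hn1
  obtain ⟨r, hr⟩ : ∃ r, r = n / K := ⟨_, rfl⟩
  have hrn : r * K ≤ n := by
    rw [hr]
    exact Nat.div_mul_le_self n K
  obtain ⟨c, hc1, hc2⟩ := exists_hyp3 (Δ * n) n r 2 (1 / 6144) hn1
    (Nat.le_mul_of_pos_left n hΔ1) (by
      calc 2 * r ≤ K * r := Nat.mul_le_mul_right _ (by omega)
        _ = r * K := by ring
        _ ≤ n := hrn)
    (by
      have h1 : (r : ℝ) * K ≤ n := by exact_mod_cast hrn
      calc 8192 * 3 ^ 12 * (((Δ * n : ℕ)) : ℝ) ^ 4 * r = (r * K) * (n : ℝ) ^ 4 := by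
            rw [hK]
            push_cast
            ring
        _ ≤ n * (n : ℝ) ^ 4 := mul_le_mul_of_nonneg_right h1 (by positivity)
        _ = (n : ℝ) ^ 5 := by ring)
    (by
      have h1 : (6144 : ℝ) ≤ n := by
        have : 6144 ≤ n := by omega
        exact_mod_cast this
      linarith)
    (by norm_num)
  obtain ⟨G, hG⟩ : ∃ G : Finset (Fin (Δ * n)), G = univ.filter fun j => Function.Injective (c j) :=
    ⟨_, rfl⟩
  have hGm : ∀ i ∈ G, Function.Injective (c i) := by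
    intro i hi
    rw [hG, mem_filter] at hi
    exact hi.2
  have hGc : Δ * n ≤ 2 * G.card := by
    have h1 := hc2 ∅ (by simp)
    have h2 : (univ.filter fun j => Bad ∅ (c j)) = Gᶜ := by
      ext j
      rw [hG, mem_filter, mem_compl, mem_filter]
      unfold Bad
      simp
    have h3 : 2 * (Gᶜ).card ≤ Δ * n := by
      rw [← h2]
      convert h1 using 2
    rw [card_compl, Fintype.card_fin] at h3
    have h4 : G.card ≤ Δ * n := by
      have := card_le_univ G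
      rwa [Fintype.card_fin] at this
    omega
  obtain ⟨g, hg⟩ : ∃ g : Fin G.card ↪o Fin (Δ * n), g = G.orderEmbOfFin rfl := ⟨_, rfl⟩
  have hgG : ∀ j, g j ∈ G := by
    intro j
    rw [hg]
    exact G.orderEmbOfFin_mem rfl j
  obtain ⟨b, hb⟩ := exists_far (m := G.card) (γ := ρ) hρ (by
    rw [Fintype.card_fin]
    have h1 : Real.log 2 ≤ 1 := by
      have := Real.log_two_lt_d9
      linarith
    have h2 : (1 : ℝ) < Δ * ρ ^ 2 := by
      rwa [div_lt_iff₀ (by positivity)] at hΔ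
    have h3 : (Δ : ℝ) * n ≤ 2 * G.card := by exact_mod_cast hGc
    calc Real.log 2 * n ≤ 1 * n := mul_le_mul_of_nonneg_right h1 hn0.le
      _ < (Δ * ρ ^ 2) * n := mul_lt_mul_of_pos_right h2 hn0
      _ = ρ ^ 2 * (Δ * n) := by ring
      _ ≤ ρ ^ 2 * (2 * G.card) := mul_le_mul_of_nonneg_left h3 (by positivity)
      _ = _ := by ring) (fun p : Fin G.card × Fin 3 => c (g p.1) p.2)
  refine ⟨G.card, fun j => c (g j), b, ?_, ?_, ?_, ?_, ?_, ?_⟩
  · have h1 : 1 ≤ Δ * n := Nat.mul_pos hΔ1 hn1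
    omega
  · exact (Nat.le_mul_of_pos_left n hΔ1).trans hGc
  · have := card_le_univ G
    rwa [Fintype.card_fin] at this
  · intro j
    exact hGm (g j) (hgG j)
  · intro J hJ hJK
    have hJ1 : 1 ≤ J.card := hJ.card_pos
    obtain ⟨J', hJ'⟩ : ∃ J' : Finset (Fin (Δ * n)), J' = J.map g.toEmbedding := ⟨_, rfl⟩
    have hcard : J'.card = J.card := by rw [hJ', card_map]
    have hmu : ∀ i, mu (fun j => c (g j)) J i = mu c J' i := by
      intro i
      unfold mu
      rw [hJ', sum_map]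
      rfl
    have h1 := hc1 J' (by omega) (by
      rw [hcard, hr, Nat.le_div_iff_mul_le hK0, mul_comm]
      exact hJK)
    have h2 := once c J' univ
    have h3 : ∑ j ∈ J', slots univ (c j) = 3 * J'.card := by
      simp only [slots_univ]
      rw [sum_const, smul_eq_mul, mul_comm]
    rw [h3] at h2
    have h4 : 0 < (univ.filter fun i => mu c J' i = 1).card := by omega
    obtain ⟨i, hi⟩ := card_pos.1 h4
    rw [mem_filter] at hi
    exact ⟨i, (hmu i).trans hi.2⟩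
  · intro x
    refine (hb x).trans (le_of_eq ?_)
    have h1 : wt (A (fun p : Fin G.card × Fin 3 => c (g p.1) p.2) x + b) =
        (univ.filter fun j => ∑ l, x (c (g j) l) ≠ b j).card := by
      unfold wt
      congr 1
      ext j
      rw [mem_filter, mem_filter]
      have e1 : (A (fun p : Fin G.card × Fin 3 => c (g p.1) p.2) x + b) j =
          ∑ l, x (c (g j) l) + b j := rfl
      rw [e1]
      have e2 : ∀ s t : ZMod 2, s + t ≠ 0 ↔ s ≠ t := by decide
      rw [e2]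
    rw [h1]

theorem base (ρ : ℝ) (hρ : 0 < ρ) : ∃ Δ K : ℕ, 1 ≤ Δ ∧ 1 ≤ K ∧ ∀ n : ℕ, K ≤ n →
    ∃ (m : ℕ) (v : Fin m → Fin 3 → Fin n) (e : Fin m → ZMod 2), 1 ≤ m ∧ m ≤ Δ * n ∧
      (∀ j, Function.Injective (v j)) ∧
      (∀ J : Finset (Fin m), J.Nonempty → K * J.card ≤ n → ∃ i, mu v J i = 1) ∧
      (∀ x : Fin n → ZMod 2, (1 / 2 - ρ) * m ≤
        ((univ.filter fun j => ∑ l, x (v j l) ≠ e j).card : ℝ)) := by
  obtain ⟨Δ, K, h1, h2, h⟩ := base2 ρ hρ
  refine ⟨Δ, K, h1, h2, fun n hn => ?_⟩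
  obtain ⟨m, v, e, g1, -, g3⟩ := h n hn
  exact ⟨m, v, e, g1, g3⟩

end Pool.Agent.V8H43.GE
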