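import Mathlib

set_option autoImplicit false

/-!
# 3-CNF formulas over a fixed list of triples of variables
-/

namespace Pool.Agent.V8H43.GE

open Finset

/-- A formula over `m` fixed triples of variables: for every triple, the set of the clauses on this
triple which it contains. A clause is given by the signs `σ` of its three literals. -/
abbrev Formula (m : ℕ) : Type := Fin m → Finset (Fin 3 → ZMod 2)

variable {n m : ℕ}

/-- The number of the clauses. -/
def size (F : Formula m) : ℕ := ∑ j, (F j).card

/-- The number of the clauses which the assignment `x` falsifies; the clause with the signs `σ` on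
the triple `v j` is the disjunction of the literals `x (v j l) = σ l`. -/
def falsified (v : Fin m → Fin 3 → Fin n) (F : Formula m) (x : Fin n → ZMod 2) : ℕ :=
  ∑ j, ((F j).filter fun σ => ∀ l, x (v j l) ≠ σ l).card

/-- The formula has a satisfying assignment. -/
def Satisfiable (v : Fin m → Fin 3 → Fin n) (F : Formula m) : Prop :=
  ∃ x : Fin n → ZMod 2, falsified v F x = 0

/-- The formula has at least one clause, and every assignment falsifies at least the fraction `ε` of
the clauses. -/
def Far (v : Fin m → Fin 3 → Fin n) (ε : ℝ) (F : Formula m) : Prop :=
  0 < size F ∧ ∀ x : Fin n → ZMod 2, ε * size F ≤ falsified v F x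

/-- A conjunction of any number of conditions, each of which depends on the clauses on at most `k`
of the triples (so every `k`-CNF in any bits which describe the clauses on one triple each). -/
def LocalConj (k : ℕ) (S : Set (Formula m)) : Prop :=
  ∃ (κ : Type) (T : κ → Finset (Fin m)) (P : κ → Set (Formula m)), (∀ i, (T i).card ≤ k) ∧
    (∀ i, ∀ F F' : Formula m, (∀ j ∈ T i, F j = F' j) → F ∈ P i → F' ∈ P i) ∧
    S = {F | ∀ i, F ∈ P i}

end Pool.Agent.V8H43.GE
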