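import Pool.Agent.V8H43.GE.Inst

set_option autoImplicit false
set_option linter.unusedSectionVars false

/-!
# Weighted sums and functions of conjunctions of local conditions
-/

namespace Pool.Agent.V8H43.GE

open Finset
open Pool.Agent.W888.GX (mu)

section

variable {ι : Type} [DecidableEq ι]

/-- conjunctions of conditions on at most `k` coordinates -/
def KC (k : ℕ) (A : Set (ι → ZMod 2)) : Prop :=
  ∃ (κ : Type) (T : κ → Finset ι) (P : κ → Set (ι → ZMod 2)), (∀ i, (T i).card ≤ k) ∧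
    (∀ i, Loc (T i) (P i)) ∧ A = {y | ∀ i, y ∈ P i}

theorem KC.iInter {k : ℕ} {η : Type} {A : η → Set (ι → ZMod 2)} {B : Set η}
    (h : ∀ a, KC k (A a)) : KC k {y | ∀ a ∈ B, y ∈ A a} := by
  choose κ T P h1 h2 h3 using h
  refine ⟨Σ a : {a // a ∈ B}, κ a.1, fun p => T p.1.1 p.2, fun p => P p.1.1 p.2,
    fun p => h1 _ _, fun p => h2 _ _, ?_⟩
  ext y
  constructor
  · intro h p
    have := h p.1.1 p.1.2
    rw [h3] at this
    exact this p.2
  · intro h a ha
    rw [h3]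
    exact fun i => h ⟨⟨a, ha⟩, i⟩

theorem KC.fool {k : ℕ} {A : Set (ι → ZMod 2)} (hA : KC k A) {X : Type} [Fintype X]
    (φ ψ : X → ι → ZMod 2) (r : ℕ) (N : ℝ) (hφ : Unif φ r N) (hψ : Unif ψ r N) (hN : 0 ≤ N)
    (τ : ℕ) (hr : k * τ * k ≤ r) :
    |cnt φ A - cnt ψ A| ≤ N * (k * (1 - (1 / 2) ^ k) ^ τ) := by
  obtain ⟨κ, T, P, h1, h2, rfl⟩ := hA
  have h := Pool.Agent.V8H43.GE.fool φ ψ r N hφ hψ hN k τ T P h2 k le_rfl ∅ (fun _ => 0) Set.univ
    (fun i _ => by rw [sdiff_empty]; exact h1 i) (by rw [card_empty]; omega)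
  rw [card_empty, pow_zero, mul_one] at h
  have e : Cube (∅ : Finset ι) (fun _ => 0) ∩ {y | ∀ i ∈ (Set.univ : Set κ), y ∈ P i} =
      {y | ∀ i, y ∈ P i} := by
    ext y
    constructor
    · rintro ⟨-, h⟩ i
      exact h i (Set.mem_univ i)
    · intro h
      exact ⟨fun j hj => absurd hj (notMem_empty j), fun i _ => h i⟩
  rwa [e] at h

open Classical in
/-- A pattern of memberships. -/
theorem pattern_eq {X : Type} [Fintype X] (φ : X → ι → ZMod 2) {q : ℕ}
    (A : Fin q → Set (ι → ZMod 2)) (a : Finset (Fin q)) :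
    cnt φ {y | ∀ i, y ∈ A i ↔ i ∈ a} =
      ∑ B ∈ (aᶜ).powerset, (-1) ^ B.card * cnt φ {y | ∀ i ∈ ((a ∪ B : Finset (Fin q)) : Set (Fin q)),
        y ∈ A i} := by
  unfold cnt
  simp only [mul_sum]
  rw [sum_comm]
  refine sum_congr rfl fun x _ => ?_
  have h1 : ∀ B ∈ (aᶜ).powerset, (-1 : ℝ) ^ B.card *
      Set.indicator {y | ∀ i ∈ ((a ∪ B : Finset (Fin q)) : Set (Fin q)), y ∈ A i}
        (fun _ => (1 : ℝ)) (φ x) =
      (∏ i ∈ a, (A i).indicator (fun _ => (1 : ℝ)) (φ x)) *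
        ∏ i ∈ B, (-(A i).indicator (fun _ => (1 : ℝ)) (φ x)) := by
    intro B hB
    rw [mem_powerset] at hB
    have hdis : Disjoint a B := disjoint_left.2 fun i hi hi' => by
      have := hB hi'
      rw [mem_compl] at this
      exact this hi
    rw [prod_neg, mul_left_comm, ← prod_union hdis]
    congr 1
    by_cases h : φ x ∈ {y | ∀ i ∈ ((a ∪ B : Finset (Fin q)) : Set (Fin q)), y ∈ A i}
    · rw [Set.indicator_of_mem h]
      refine (prod_eq_one fun i hi => ?_).symm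
      exact Set.indicator_of_mem (h i (mem_coe.2 hi)) _
    · rw [Set.indicator_of_notMem h]
      have h2 : ∃ i ∈ a ∪ B, φ x ∉ A i := by
        by_contra hcon
        push Not at hcon
        exact h fun i hi => hcon i (mem_coe.1 hi)
      obtain ⟨i, hi, hiA⟩ := h2
      exact (prod_eq_zero hi (Set.indicator_of_notMem hiA _)).symm
  rw [sum_congr rfl h1, ← mul_sum, ← prod_one_add]
  by_cases h : φ x ∈ {y | ∀ i, y ∈ A i ↔ i ∈ a}
  · rw [Set.indicator_of_mem h]
    rw [prod_eq_one fun i hi => Set.indicator_of_mem ((h i).2 hi) _, one_mul]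
    refine (prod_eq_one fun i hi => ?_).symm
    rw [mem_compl] at hi
    rw [Set.indicator_of_notMem (fun h' => hi ((h i).1 h')), neg_zero, add_zero]
  · rw [Set.indicator_of_notMem h]
    have h2 : ∃ i, ¬ (φ x ∈ A i ↔ i ∈ a) := by
      by_contra hcon
      push Not at hcon
      exact h hcon
    obtain ⟨i, hi⟩ := h2
    by_cases hia : i ∈ a
    · have h3 : φ x ∉ A i := fun h' => hi ⟨fun _ => hia, fun _ => h'⟩
      rw [prod_eq_zero hia (Set.indicator_of_notMem h3 _), zero_mul]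
    · have h3 : φ x ∈ A i := by
        by_contra h'
        exact hi ⟨fun h'' => absurd h'' h', fun h'' => absurd h'' hia⟩
      rw [prod_eq_zero (mem_compl.2 hia), mul_zero]
      rw [Set.indicator_of_mem h3]
      norm_num

open Classical in
/-- Functions of `q` conjunctions of local conditions. -/
theorem fool_fun {X : Type} [Fintype X] (φ ψ : X → ι → ZMod 2) (r : ℕ) (N : ℝ) (hφ : Unif φ r N)
    (hψ : Unif ψ r N) (hN : 0 ≤ N) (k τ : ℕ) (hr : k * τ * k ≤ r) {q : ℕ}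
    (A : Fin q → Set (ι → ZMod 2)) (hA : ∀ i, KC k (A i)) (g : Set (Finset (Fin q))) :
    |cnt φ {y | univ.filter (fun i => y ∈ A i) ∈ g} -
        cnt ψ {y | univ.filter (fun i => y ∈ A i) ∈ g}| ≤
      4 ^ q * (N * (k * (1 - (1 / 2) ^ k) ^ τ)) := by
  obtain ⟨β, hβ⟩ : ∃ β, β = N * (k * (1 - (1 / 2 : ℝ) ^ k) ^ τ) := ⟨_, rfl⟩
  rw [← hβ]
  have hq : (0 : ℝ) ≤ 1 - (1 / 2) ^ k := by
    have : ((1 : ℝ) / 2) ^ k ≤ 1 := pow_le_one₀ (by norm_num) (by norm_num)
    linarith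
  have hβ0 : 0 ≤ β := by rw [hβ]; positivity
  have h1 : ∀ χ : X → ι → ZMod 2, cnt χ {y | univ.filter (fun i => y ∈ A i) ∈ g} =
      ∑ a ∈ univ.filter (fun a : Finset (Fin q) => a ∈ g), cnt χ {y | ∀ i, y ∈ A i ↔ i ∈ a} := by
    intro χ
    unfold cnt
    rw [sum_comm]
    refine sum_congr rfl fun x _ => ?_
    have h2 : ∀ a : Finset (Fin q), (χ x ∈ {y | ∀ i, y ∈ A i ↔ i ∈ a}) ↔
        a = univ.filter (fun i => χ x ∈ A i) := by
      intro a
      rw [Finset.ext_iff]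
      show (∀ i, χ x ∈ A i ↔ i ∈ a) ↔ _
      simp only [mem_filter, mem_univ, true_and]
      exact forall_congr' fun i => Iff.comm
    by_cases h : χ x ∈ {y | univ.filter (fun i => y ∈ A i) ∈ g}
    · rw [Set.indicator_of_mem h, sum_eq_single (univ.filter (fun i => χ x ∈ A i))]
      · rw [Set.indicator_of_mem ((h2 _).2 rfl)]
      · intro a _ ha
        exact Set.indicator_of_notMem (fun h' => ha ((h2 a).1 h')) _
      · intro h'
        have h0 : univ.filter (fun i => χ x ∈ A i) ∈ g := h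
        exact absurd (mem_filter.2 ⟨mem_univ _, h0⟩) h'
    · rw [Set.indicator_of_notMem h]
      refine (sum_eq_zero fun a ha => Set.indicator_of_notMem (fun h' => h ?_) _).symm
      rw [(h2 a).1 h'] at ha
      exact (mem_filter.1 ha).2
  rw [h1, h1, ← sum_sub_distrib]
  have h3 : ∀ a : Finset (Fin q), |cnt φ {y | ∀ i, y ∈ A i ↔ i ∈ a} -
      cnt ψ {y | ∀ i, y ∈ A i ↔ i ∈ a}| ≤ 2 ^ q * β := by
    intro a
    rw [pattern_eq, pattern_eq, ← sum_sub_distrib]
    refine (abs_sum_le_sum_abs _ _).trans ?_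
    have h4 : ∀ B ∈ (aᶜ).powerset, |(-1 : ℝ) ^ B.card * cnt φ {y | ∀ i ∈
        ((a ∪ B : Finset (Fin q)) : Set (Fin q)), y ∈ A i} - (-1) ^ B.card * cnt ψ {y | ∀ i ∈
        ((a ∪ B : Finset (Fin q)) : Set (Fin q)), y ∈ A i}| ≤ β := by
      intro B _
      rw [← mul_sub, abs_mul, abs_pow, abs_neg, abs_one, one_pow, one_mul, hβ]
      exact (KC.iInter hA).fool φ ψ r N hφ hψ hN τ hr
    refine (sum_le_sum h4).trans ?_
    rw [sum_const, nsmul_eq_mul, card_powerset]
    refine mul_le_mul_of_nonneg_right ?_ hβ0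
    push_cast
    refine pow_le_pow_right₀ (by norm_num) ?_
    have := card_le_univ (aᶜ)
    rwa [Fintype.card_fin] at this
  refine (abs_sum_le_sum_abs _ _).trans ((sum_le_sum fun a _ => h3 a).trans ?_)
  rw [sum_const, nsmul_eq_mul]
  have h5 : ((univ.filter (fun a : Finset (Fin q) => a ∈ g)).card : ℝ) ≤ 2 ^ q := by
    have := card_le_univ (univ.filter (fun a : Finset (Fin q) => a ∈ g))
    rw [Fintype.card_finset, Fintype.card_fin] at this
    exact_mod_cast this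
  have h6 : (0 : ℝ) ≤ 2 ^ q * β := by positivity
  calc _ ≤ (2 : ℝ) ^ q * (2 ^ q * β) := mul_le_mul_of_nonneg_right h5 h6
    _ = 4 ^ q * β := by
      rw [← mul_assoc, ← mul_pow]
      norm_num

end

end Pool.Agent.V8H43.GE
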