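import Pool.Agent.V8H43.GE.Inst

set_option autoImplicit false
set_option linter.unusedSectionVars false

/-!
# Sums of subcubes with arbitrary real weights
-/

namespace Pool.Agent.V8H43.GE

open Finset
open Pool.Agent.W888.GX (mu)

section

variable {ι : Type} [Fintype ι] [DecidableEq ι]

/-- the subcubes `i` which do not conflict with `z` on `Z` -/
def alive {s : ℕ} (D : Fin s → Finset ι) (c : Fin s → ι → ZMod 2) (Z : Finset ι)
    (z : ι → ZMod 2) : Finset (Fin s) :=
  univ.filter fun i => ∀ j ∈ D i ∩ Z, c i j = z j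

/-- Few coordinates can be fixed such that many of the wide subcubes are excluded. -/
theorem greedy {s : ℕ} (D : Fin s → Finset ι) (c : Fin s → ι → ZMod 2) (t : ℕ)
    (hm : 0 < Fintype.card ι) (ht : t ≤ Fintype.card ι) (u : ℕ) (hu : u ≤ t) :
    ∃ (Z : Finset ι) (z : ι → ZMod 2), Z.card ≤ u ∧
      (((alive D c Z z).filter fun i => 2 * t ≤ (D i).card).card : ℝ) ≤
        s * (1 - t / (2 * Fintype.card ι)) ^ u := by
  induction u with
  | zero =>
    refine ⟨∅, fun _ => 0, by simp, ?_⟩
    rw [pow_zero, mul_one]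
    have h1 : ((alive D c ∅ fun _ => 0).filter fun i => 2 * t ≤ (D i).card).card ≤
        (univ : Finset (Fin s)).card := card_le_univ _
    rw [card_univ, Fintype.card_fin] at h1
    exact_mod_cast h1
  | succ u ih =>
    obtain ⟨Z, z, hZ, hle⟩ := ih (by omega)
    obtain ⟨W, hW⟩ : ∃ W, W = (alive D c Z z).filter fun i => 2 * t ≤ (D i).card := ⟨_, rfl⟩
    rw [← hW] at hle
    have hm0 : (0 : ℝ) < Fintype.card ι := by exact_mod_cast hm
    -- the pairs
    obtain ⟨kill, hkill⟩ : ∃ kill : ι × ZMod 2 → Finset (Fin s),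
        kill = fun p => W.filter fun i => p.1 ∈ D i \ Z ∧ c i p.1 ≠ p.2 := ⟨_, rfl⟩
    have hsum : W.card * t ≤ ∑ p : ι × ZMod 2, (kill p).card := by
      rw [hkill]
      simp only [card_filter]
      rw [sum_comm, ← smul_eq_mul, ← sum_const]
      refine sum_le_sum fun i hi => ?_
      rw [Fintype.sum_prod_type]
      have h1 : ∀ j : ι, ∑ a : ZMod 2, (if j ∈ D i \ Z ∧ c i j ≠ a then 1 else 0) =
          if j ∈ D i \ Z then 1 else 0 := by
        intro j
        by_cases hj : j ∈ D i \ Z
        · simp only [hj, true_and, if_true]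
          have h2 : ∀ b : ZMod 2, ∑ a : ZMod 2, (if b ≠ a then 1 else 0) = 1 := by decide
          exact h2 _
        · simp [hj]
      rw [sum_congr rfl fun j _ => h1 j, ← card_filter, filter_mem_eq_inter, univ_inter]
      rw [hW, mem_filter] at hi
      have h3 := le_card_sdiff Z (D i)
      omega
    obtain ⟨p, hp⟩ : ∃ p : ι × ZMod 2, (W.card : ℝ) * t ≤
        2 * Fintype.card ι * (kill p).card := by
      by_contra hcon
      push Not at hcon
      have h1 : ∑ p : ι × ZMod 2, (2 * Fintype.card ι * (kill p).card : ℝ) <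
          ∑ _p : ι × ZMod 2, (W.card : ℝ) * t := by
        have : Nonempty ι := Fintype.card_pos_iff.1 hm
        exact sum_lt_sum_of_nonempty univ_nonempty fun p _ => hcon p
      rw [sum_const, card_univ, Fintype.card_prod, ZMod.card, nsmul_eq_mul, ← mul_sum] at h1
      have h2 : ((W.card * t : ℕ) : ℝ) ≤ ((∑ p : ι × ZMod 2, (kill p).card : ℕ) : ℝ) := by
        exact_mod_cast hsum
      push_cast at h1 h2
      have h3 : (0 : ℝ) < 2 * Fintype.card ι := by positivity
      nlinarith
    have hq : (0 : ℝ) ≤ 1 - t / (2 * Fintype.card ι) := by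
      have h1 : (t : ℝ) / (2 * Fintype.card ι) ≤ 1 := by
        rw [div_le_one (by positivity)]
        have : (t : ℝ) ≤ Fintype.card ι := by exact_mod_cast ht
        linarith
      linarith
    have hW' : ∀ W' : Finset (Fin s), W' ⊆ W \ kill p →
        ((W'.card : ℕ) : ℝ) ≤ s * (1 - t / (2 * Fintype.card ι)) ^ (u + 1) := by
      intro W' hsub
      have hks : kill p ⊆ W := by
        rw [hkill]
        exact filter_subset _ _
      have h1 := card_le_card hsub
      rw [card_sdiff_of_subset hks] at h1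
      have h2 : (W'.card : ℝ) + (kill p).card ≤ W.card := by
        have h3 := card_le_card hks
        have h4 : W'.card + (kill p).card ≤ W.card := by omega
        exact_mod_cast h4
      have h3 : (W.card : ℝ) * (t / (2 * Fintype.card ι)) ≤ (kill p).card := by
        rw [← mul_div_assoc, div_le_iff₀ (by positivity)]
        linarith
      calc (W'.card : ℝ) ≤ W.card - (kill p).card := by linarith
        _ ≤ W.card * (1 - t / (2 * Fintype.card ι)) := by linarith
        _ ≤ (s * (1 - t / (2 * Fintype.card ι)) ^ u) * (1 - t / (2 * Fintype.card ι)) :=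
          mul_le_mul_of_nonneg_right hle hq
        _ = _ := by rw [pow_succ]; ring
    by_cases hpZ : p.1 ∈ Z
    · refine ⟨Z, z, by omega, ?_⟩
      have h1 : kill p = ∅ := by
        rw [hkill]
        refine filter_eq_empty_iff.2 fun i _ h => ?_
        exact (mem_sdiff.1 h.1).2 hpZ
      refine hW' _ ?_
      rw [h1, sdiff_empty, hW]
    · refine ⟨insert p.1 Z, Function.update z p.1 p.2, (card_insert_le _ _).trans (by omega),
        hW' _ ?_⟩
      intro i hi
      rw [mem_filter, alive, mem_filter] at hi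
      rw [mem_sdiff, hW, mem_filter, alive, mem_filter]
      refine ⟨⟨⟨mem_univ _, fun j hj => ?_⟩, hi.2⟩, ?_⟩
      · rw [mem_inter] at hj
        have h1 := hi.1.2 j (mem_inter.2 ⟨hj.1, mem_insert_of_mem hj.2⟩)
        rwa [Function.update_of_ne (fun h => hpZ (by rw [← h]; exact hj.2))] at h1
      · intro hk
        rw [hkill, mem_filter] at hk
        refine hk.2.2 ?_
        have h1 := hi.1.2 p.1 (mem_inter.2 ⟨(mem_sdiff.1 hk.2.1).1, mem_insert_self _ _⟩)
        rwa [Function.update_self] at h1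

/-- a subcube -/
theorem cube_inter {D Z : Finset ι} {c z : ι → ZMod 2} (h : ∀ j ∈ D ∩ Z, c j = z j) :
    Cube Z z ∩ Cube D c = Cube (Z ∪ D) (fun j => if j ∈ Z then z j else c j) := by
  ext y
  constructor
  · rintro ⟨h1, h2⟩ j hj
    show y j = if j ∈ Z then z j else c j
    by_cases hjZ : j ∈ Z
    · rw [if_pos hjZ]
      exact h1 j hjZ
    · rw [if_neg hjZ]
      exact h2 j ((mem_union.1 hj).resolve_left hjZ)
  · intro h1
    have h2 : ∀ j ∈ Z ∪ D, y j = if j ∈ Z then z j else c j := h1
    refine ⟨fun j hj => ?_, fun j hj => ?_⟩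
    · rw [h2 j (mem_union_left _ hj), if_pos hj]
    · rw [h2 j (mem_union_right _ hj)]
      by_cases hjZ : j ∈ Z
      · rw [if_pos hjZ]
        exact (h j (mem_inter.2 ⟨hj, hjZ⟩)).symm
      · rw [if_neg hjZ]

/-- Few subcubes with real weights do not tell two distributions apart. -/
theorem thr {X : Type} [Fintype X] (φ ψ : X → ι → ZMod 2) (r : ℕ) (N : ℝ) (hφ : Unif φ r N)
    (hψ : Unif ψ r N) (hN : 0 < N) (t : ℕ) (ht : t ≤ Fintype.card ι) (hm : 0 < Fintype.card ι)
    (hr : 3 * t ≤ r) {s : ℕ} (D : Fin s → Finset ι) (c : Fin s → ι → ZMod 2) (w : Fin s → ℝ)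
    (hs : (s : ℝ) * (1 - t / (2 * Fintype.card ι)) ^ t < 1)
    (h1 : ∀ x, 0 < ∑ i, w i * (Cube (D i) (c i)).indicator (fun _ => (1 : ℝ)) (φ x))
    (h0 : ∀ x, ∑ i, w i * (Cube (D i) (c i)).indicator (fun _ => (1 : ℝ)) (ψ x) ≤ 0) : False := by
  obtain ⟨Z, z, hZ, hW⟩ := greedy D c t hm ht t le_rfl
  have hW0 : ((alive D c Z z).filter fun i => 2 * t ≤ (D i).card) = ∅ := by
    rw [← card_eq_zero]
    have h2 := lt_of_le_of_lt hW hs
    have h3 : ((alive D c Z z).filter fun i => 2 * t ≤ (D i).card).card < 1 := by exact_mod_cast h2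
    omega
  -- all the counts agree
  have heq : ∀ i, cnt φ (Cube Z z ∩ Cube (D i) (c i)) = cnt ψ (Cube Z z ∩ Cube (D i) (c i)) := by
    intro i
    by_cases hi : i ∈ alive D c Z z
    · have hwide : (D i).card < 2 * t := by
        by_contra hcon
        have : i ∈ (alive D c Z z).filter fun i => 2 * t ≤ (D i).card :=
          mem_filter.2 ⟨hi, not_lt.1 hcon⟩
        rw [hW0] at this
        exact absurd this (notMem_empty i)
      rw [alive, mem_filter] at hi
      rw [cube_inter hi.2]
      have hc : (Z ∪ D i).card ≤ r := (card_union_le _ _).trans (by omega)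
      have h2 := hφ _ hc (fun j => if j ∈ Z then z j else c i j)
      have h3 := hψ _ hc (fun j => if j ∈ Z then z j else c i j)
      have h5 : (0 : ℝ) < 2 ^ (Z ∪ D i).card := by positivity
      exact mul_right_cancel₀ h5.ne' (h2.trans h3.symm)
    · have h2 : ∀ y, y ∉ Cube Z z ∩ Cube (D i) (c i) := by
        rintro y ⟨h3, h4⟩
        refine hi ?_
        rw [alive, mem_filter]
        refine ⟨mem_univ _, fun j hj => ?_⟩
        rw [mem_inter] at hj
        rw [← h4 j hj.1, h3 j hj.2]
      rw [cnt_empty φ h2, cnt_empty ψ h2]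
  have hsum : ∀ χ : X → ι → ZMod 2,
      ∑ x, (Cube Z z).indicator (fun _ => (1 : ℝ)) (χ x) *
        ∑ i, w i * (Cube (D i) (c i)).indicator (fun _ => (1 : ℝ)) (χ x) =
      ∑ i, w i * cnt χ (Cube Z z ∩ Cube (D i) (c i)) := by
    intro χ
    unfold cnt
    simp only [mul_sum]
    rw [sum_comm]
    refine sum_congr rfl fun i _ => sum_congr rfl fun x _ => ?_
    have key : (Cube Z z ∩ Cube (D i) (c i)).indicator (fun _ => (1 : ℝ)) (χ x) =
        (Cube Z z).indicator (fun _ => (1 : ℝ)) (χ x) *
          (Cube (D i) (c i)).indicator (fun _ => (1 : ℝ)) (χ x) := by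
      by_cases h2 : χ x ∈ Cube Z z <;> by_cases h3 : χ x ∈ Cube (D i) (c i) <;>
        simp [Set.indicator_apply, Set.mem_inter_iff, h2, h3]
    rw [key]
    ring
  have hA : 0 < ∑ x, (Cube Z z).indicator (fun _ => (1 : ℝ)) (φ x) *
        ∑ i, w i * (Cube (D i) (c i)).indicator (fun _ => (1 : ℝ)) (φ x) := by
    have h2 : 0 < cnt φ (Cube Z z) := by
      have h3 := hφ Z (by omega) z
      by_contra hcon
      have h4 := cnt_nonneg φ (Cube Z z)
      have h5 : cnt φ (Cube Z z) = 0 := le_antisymm (not_lt.1 hcon) h4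
      rw [h5, zero_mul] at h3
      linarith
    obtain ⟨x, -, hx⟩ : ∃ x ∈ (univ : Finset X),
        (Cube Z z).indicator (fun _ => (1 : ℝ)) (φ x) ≠ 0 := by
      by_contra hcon
      push Not at hcon
      rw [cnt, sum_eq_zero hcon] at h2
      exact lt_irrefl _ h2
    refine sum_pos' (fun x _ => mul_nonneg (Set.indicator_nonneg (fun _ _ => zero_le_one) _)
      (h1 x).le) ⟨x, mem_univ x, mul_pos ?_ (h1 x)⟩
    exact lt_of_le_of_ne (Set.indicator_nonneg (fun _ _ => zero_le_one) _) (Ne.symm hx)
  have hB : ∑ x, (Cube Z z).indicator (fun _ => (1 : ℝ)) (ψ x) *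
        ∑ i, w i * (Cube (D i) (c i)).indicator (fun _ => (1 : ℝ)) (ψ x) ≤ 0 :=
    sum_nonpos fun x _ => mul_nonpos_of_nonneg_of_nonpos
      (Set.indicator_nonneg (fun _ _ => zero_le_one) _) (h0 x)
  rw [hsum] at hA hB
  rw [sum_congr rfl fun i _ => by rw [heq i]] at hA
  linarith

end

end Pool.Agent.V8H43.GE
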