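import Pool.Agent.V8H43.GE.Thr

set_option autoImplicit false

/-!
# Gap 3-SAT and weighted sums of products
-/

namespace Pool.Agent.V8H43.GE

open Finset
open Pool.Agent.W888.GX (mu)

variable {n m : ℕ}

/-- The formulas with `F j ∈ g j` for all triples `j`. -/
def Box (g : Fin m → Set (Finset (Fin 3 → ZMod 2))) : Set (Formula m) := {F | ∀ j, F j ∈ g j}

/-- the clauses of an equation -/
def eqn (a : ZMod 2) : Finset (Fin 3 → ZMod 2) := univ.filter fun σ => ∑ l, (σ l + 1) ≠ a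

open Classical in
/-- A box is a subcube or empty on the formulas of systems of equations. -/
theorem box_cube (g : Fin m → Set (Finset (Fin 3 → ZMod 2))) :
    ∃ (D : Finset (Fin m)) (c : Fin m → ZMod 2) (a : ℝ), ∀ b : Fin m → ZMod 2,
      (if xf b ∈ Box g then (1 : ℝ) else 0) = a * (Cube D c).indicator (fun _ => (1 : ℝ)) b := by
  by_cases h : ∃ j, ∀ a, eqn a ∉ g j
  · obtain ⟨j, hj⟩ := h
    refine ⟨∅, fun _ => 0, 0, fun b => ?_⟩
    rw [zero_mul, if_neg fun h => hj (b j) (h j)]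
  · push Not at h
    choose c hc using h
    refine ⟨univ.filter fun j => eqn (c j + 1) ∉ g j, c, 1, fun b => ?_⟩
    rw [one_mul]
    have h2 : xf b ∈ Box g ↔ b ∈ Cube (univ.filter fun j => eqn (c j + 1) ∉ g j) c := by
      have h3 : ∀ a d : ZMod 2, a = d ∨ a = d + 1 := by decide
      constructor
      · intro hb j hj
        rw [mem_filter] at hj
        rcases h3 (b j) (c j) with h4 | h4
        · exact h4
        · exact absurd (by rw [← h4]; exact hb j) hj.2
      · intro hb j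
        show eqn (b j) ∈ g j
        rcases h3 (b j) (c j) with h4 | h4
        · rw [h4]
          exact hc j
        · by_contra hcon
          have h5 := hb j (mem_filter.2 ⟨mem_univ j, by rw [← h4]; exact hcon⟩)
          rw [h5] at h4
          have h6 : ∀ a : ZMod 2, a ≠ a + 1 := by decide
          exact h6 _ h4
    by_cases hb : xf b ∈ Box g
    · rw [if_pos hb, Set.indicator_of_mem (h2.1 hb)]
    · rw [if_neg hb, Set.indicator_of_notMem fun h => hb (h2.2 h)]

open Classical in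
theorem thr_main (ρ : ℝ) (hρ : 0 < ρ) : ∃ Δ C : ℕ, 1 ≤ Δ ∧ 1 ≤ C ∧ ∀ n : ℕ, C ≤ n →
    ∃ (m : ℕ) (v : Fin m → Fin 3 → Fin n), 1 ≤ m ∧ m ≤ Δ * n ∧
      (∀ j, Function.Injective (v j)) ∧
        ∀ (s : ℕ) (g : Fin s → Fin m → Set (Finset (Fin 3 → ZMod 2))) (w : Fin s → ℝ),
          (∀ F, Satisfiable v F → 0 < ∑ i, if F ∈ Box (g i) then w i else 0) →
          (∀ F, Far v (1 / 8 - ρ) F → ∑ i, (if F ∈ Box (g i) then w i else 0) ≤ 0) →
          Real.exp (n / C) ≤ s := by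
  obtain ⟨Δ, K, hΔ, hK, hbase⟩ := base2 (4 * ρ) (by linarith)
  refine ⟨Δ, 72 * K ^ 2 * Δ, hΔ, Nat.mul_pos (by positivity) hΔ, fun n hn => ?_⟩
  have hKn : 6 * K ≤ n := by
    refine le_trans ?_ hn
    calc 6 * K = 6 * K * 1 * 1 := by ring
      _ ≤ 72 * K * K * Δ := by
        refine Nat.mul_le_mul (Nat.mul_le_mul (by omega) hK) hΔ
      _ = 72 * K ^ 2 * Δ := by ring
  obtain ⟨m, v, e, hm, hnm, hmΔ, hinj, hv, he⟩ := hbase n (by omega)
  refine ⟨m, v, hm, hmΔ, hinj, fun s g w h1 h0 => ?_⟩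
  have hρ4 : (1 / 8 : ℝ) - ρ = 1 / 8 - 4 * ρ / 4 := by ring
  obtain ⟨r, hr⟩ : ∃ r, r = n / K := ⟨_, rfl⟩
  have hv' : ∀ J : Finset (Fin m), J.Nonempty → J.card ≤ r → ∃ i, mu v J i = 1 := by
    intro J hJ hJr
    refine hv J hJ ?_
    calc K * J.card ≤ K * r := Nat.mul_le_mul_left _ hJr
      _ ≤ n := by rw [hr]; exact Nat.mul_div_le n K
  obtain ⟨φ, hφ⟩ : ∃ φ : (Fin n → ZMod 2) → Fin m → ZMod 2, φ = word v 0 := ⟨_, rfl⟩
  obtain ⟨ψ, hψ⟩ : ∃ ψ : (Fin n → ZMod 2) → Fin m → ZMod 2, ψ = word v e := ⟨_, rfl⟩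
  have hφu : Unif φ r (2 ^ n) := by rw [hφ]; exact unif_word v r hv' 0
  have hψu : Unif ψ r (2 ^ n) := by rw [hψ]; exact unif_word v r hv' e
  have hsat : ∀ x, Satisfiable v (xf (φ x)) := by
    intro x
    rw [hφ]
    exact satisfiable_word v x
  have hfar : ∀ x, Far v (1 / 8 - ρ) (xf (ψ x)) := by
    intro x
    rw [hψ, hρ4]
    exact far_word v e (4 * ρ) hm he x
  choose D c a hDc using fun i => box_cube (g i)
  obtain ⟨t, ht⟩ : ∃ t, t = n / (3 * K) := ⟨_, rfl⟩
  have ht3 : 3 * t ≤ r := by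
    rw [hr, Nat.le_div_iff_mul_le (by omega)]
    calc 3 * t * K = 3 * K * t := by ring
      _ ≤ n := by rw [ht]; exact Nat.mul_div_le n (3 * K)
  have htm : t ≤ m := by
    have h2 : 3 * t ≤ n := by
      refine ht3.trans ?_
      rw [hr]
      exact Nat.div_le_self n K
    omega
  have hval : ∀ b : Fin m → ZMod 2, ∑ i, (if xf b ∈ Box (g i) then w i else 0) =
      ∑ i, (w i * a i) * (Cube (D i) (c i)).indicator (fun _ => (1 : ℝ)) b := by
    intro b
    refine sum_congr rfl fun i _ => ?_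
    rw [mul_assoc, ← hDc i b]
    split_ifs <;> simp
  by_contra hcon
  push Not at hcon
  have hm0 : (0 : ℝ) < m := by exact_mod_cast hm
  have hn0 : (0 : ℝ) < n := by
    have : 0 < n := by omega
    exact_mod_cast this
  have hK0 : (0 : ℝ) < K := by exact_mod_cast hK
  have hΔ0 : (0 : ℝ) < Δ := by exact_mod_cast hΔ
  refine thr φ ψ r (2 ^ n) hφu hψu (by positivity) t (by rw [Fintype.card_fin]; exact htm)
    (by rw [Fintype.card_fin]; omega) ht3 D c (fun i => w i * a i) ?_ ?_ ?_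
  · rw [Fintype.card_fin]
    have h2 : (n : ℝ) / (6 * K) ≤ t := by
      have h3 : n < n / (3 * K) * (3 * K) + 3 * K := Nat.lt_div_mul_add (by omega)
      rw [← ht] at h3
      have h4 : (n : ℝ) < t * (3 * K) + 3 * K := by exact_mod_cast h3
      have h5 : (6 : ℝ) * K ≤ n := by exact_mod_cast hKn
      rw [div_le_iff₀ (by positivity)]
      linarith
    have h3 : (m : ℝ) ≤ Δ * n := by exact_mod_cast hmΔ
    have h4 : (n : ℝ) / ((72 * K ^ 2 * Δ : ℕ) : ℝ) ≤ t * (t / (2 * m)) := by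
      have h5 : (n : ℝ) / (6 * K) * (n / (6 * K) / (2 * (Δ * n))) = n / ((72 * K ^ 2 * Δ : ℕ) : ℝ) := by
        push_cast
        field_simp
        ring
      rw [← h5]
      have h6 : (0 : ℝ) ≤ n / (6 * K) := by positivity
      refine mul_le_mul h2 ?_ (by positivity) (by positivity)
      exact div_le_div₀ (by positivity) h2 (by positivity) (by linarith)
    have h5 : (1 : ℝ) - t / (2 * m) ≤ Real.exp (-(t / (2 * m))) := by
      have := Real.add_one_le_exp (-((t : ℝ) / (2 * m)))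
      linarith
    have h6 : (0 : ℝ) ≤ 1 - t / (2 * m) := by
      have h7 : (t : ℝ) / (2 * m) ≤ 1 := by
        rw [div_le_one (by positivity)]
        have : (t : ℝ) ≤ m := by exact_mod_cast htm
        linarith
      linarith
    have h7 : (1 - (t : ℝ) / (2 * m)) ^ t ≤ Real.exp (-(n / ((72 * K ^ 2 * Δ : ℕ) : ℝ))) := by
      calc (1 - (t : ℝ) / (2 * m)) ^ t ≤ Real.exp (-(t / (2 * m))) ^ t := pow_le_pow_left₀ h6 h5 t
        _ = Real.exp (-(t * (t / (2 * m)))) := by
          rw [← Real.exp_nat_mul]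
          congr 1
          ring
        _ ≤ _ := Real.exp_le_exp.2 (by linarith)
    have hs0 : (0 : ℝ) ≤ s := Nat.cast_nonneg s
    calc (s : ℝ) * (1 - t / (2 * m)) ^ t
        ≤ s * Real.exp (-(n / ((72 * K ^ 2 * Δ : ℕ) : ℝ))) := mul_le_mul_of_nonneg_left h7 hs0
      _ < Real.exp (n / ((72 * K ^ 2 * Δ : ℕ) : ℝ)) * Real.exp (-(n / ((72 * K ^ 2 * Δ : ℕ) : ℝ))) :=
        mul_lt_mul_of_pos_right hcon (Real.exp_pos _)
      _ = 1 := by rw [← Real.exp_add, add_neg_cancel, Real.exp_zero]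
  · intro x
    have := h1 _ (hsat x)
    rwa [hval] at this
  · intro x
    have := h0 _ (hfar x)
    rwa [hval] at this

end Pool.Agent.V8H43.GE
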